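import Pool.Agent.Lib.MP_4b56aa_gt.Fan.FLim
import Pool.Agent.Lib.MP_4b56aa_gt.Out.OFrame

namespace Pool.Agent.Lib.MP_4b56aa_gt.Fan

open Set Metric MeasureTheory Pool.Agent.Lib.MP_4b56aa_gt.Red Pool.Agent.Lib.MP_4b56aa_gt.Out

variable {L ρ r θ ε c : ℝ} {n : ℕ} {ψ x : ℕ → ℝ} {P : ℕ → ℂ}

/-- Some fan of length `c` over a sampling of mesh `ε` visits `z`. -/
def DatE (L ρ r ε c : ℝ) (z : ℂ) : Prop :=
  ∃ (n : ℕ) (ψ x : ℕ → ℝ) (P : ℕ → ℂ) (A : Set ℕ) (a j : ℕ), Dat L ρ r ε n ψ x P A a j c z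

theorem fan_approx (h : Par L ρ r θ) : ∃ lam, 0 < lam ∧ lam ≤ 1 ∧ ∀ (z : ℂ) (η : ℝ), 0 < η →
    ∃ ε0, 0 < ε0 ∧ ∀ ε c, DatE L ρ r ε c z → ε ≤ ε0 → c ≤ Lst L ρ r θ + ε → Q L ρ r θ lam η z := by
  have pi := Real.pi_pos
  have h0 := h.h0
  have hL := h.hL
  have hr := h.hr
  have hρ := h.ρ0
  obtain ⟨lam, l0, l1, hl⟩ := chord_slack (ν := θ / 3) (by linarith) (by linarith [h.h1])
  obtain ⟨m, m0, m1, hm⟩ := chord_slack (ν := Real.pi / 24) (by linarith) (by linarith)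
  have s0 := Real.sin_pos_of_pos_of_lt_pi (x := Real.pi / 24) (by linarith) (by linarith)
  refine ⟨lam, l0, l1, fun z η η0 => ?_⟩
  obtain ⟨e, e0, e1, e2, e3, e4⟩ : ∃ e, 0 < e ∧ (2 * (‖z‖ + L + ρ + 2 * r + 1) + 3) * e ≤ η ∧
      e ≤ 1 / 16 ∧ e ≤ lam / 4 ∧ e ≤ m * (ρ * Real.sin (Real.pi / 24)) / 6 :=
    ⟨min (η / (2 * (‖z‖ + L + ρ + 2 * r + 1) + 3))
      (min (1 / 16) (min (lam / 4) (m * (ρ * Real.sin (Real.pi / 24)) / 6))), by positivity,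
      (le_div_iff₀' (by positivity)).1 (min_le_left _ _),
      (min_le_right _ _).trans (min_le_left _ _),
      (min_le_right _ _).trans ((min_le_right _ _).trans (min_le_left _ _)),
      (min_le_right _ _).trans ((min_le_right _ _).trans (min_le_right _ _))⟩
  obtain ⟨σ, σ0, S⟩ : ∃ σ, 0 < σ ∧ Sml ρ r θ σ e := by
    refine ⟨min (θ / 4) (min (e ^ 3 / (16 * (r + 1))) (e / (2 * (ρ + r + 2)))), by positivity,
      by linarith [min_le_left (θ / 4) (min (e ^ 3 / (16 * (r + 1))) (e / (2 * (ρ + r + 2))))], ?_,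
      (le_div_iff₀' (by positivity)).1 ((min_le_right _ _).trans (min_le_right _ _)), e2, e0⟩
    have := (le_div_iff₀' (by positivity)).1 ((min_le_right (θ / 4) _).trans
      (min_le_left (e ^ 3 / (16 * (r + 1))) (e / (2 * (ρ + r + 2)))))
    linarith [pow_pos e0 3]
  obtain ⟨ε0, p0, p⟩ := exists_tight h σ0
  refine ⟨ε0, p0, ?_⟩
  rintro ε c ⟨n, ψ, x, P, A, a, j, D⟩ he hc
  have T := p D he hc
  have : σ ≤ e := by nlinarith [S.s3]
  refine (T.marked S l1 (by linarith) fun i k a1 a2 a3 q => hl _ _ ?_).mono e1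
  rw [abs_sub_comm, abs_of_nonneg (sub_nonneg.2 (T.mono a2.le))]
  exact T.surplus S m0 m1 hm (by linarith) a1 a2 a3 q

theorem DatE.low (h : Par L ρ r θ) {z : ℂ} (D : DatE L ρ r ε c z) (he : ε ≤ θ) :
    Lst L ρ r θ - (4 * L + 9 * (ρ + r) + 11) * ε ≤ c := by
  obtain ⟨n, ψ, x, P, A, a, j, D⟩ := D
  have := Real.cos_le_cos_of_nonneg_of_le_pi (x := θ - min |ψ a - Real.pi / 2| θ) (y := θ)
    (sub_nonneg.2 (min_le_right _ _)) (by linarith [h.h1, Real.pi_pos])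
    (sub_le_self _ (le_min (abs_nonneg _) h.h0.le))
  nlinarith [D.lowA h he, h.hL]

theorem Samp.sub (h : Samp L ε n ψ x) (m : ℤ) :
    Samp L ε n (fun i => ψ i - m * (2 * Real.pi)) x := by
  refine ⟨fun i => by rw [h.perψ]; ring, h.perx, fun i => by linarith [h.mono i],
    fun i => by linarith [h.meshψ i], h.meshx, h.bnd,
    fun i => by rw [Real.cos_sub_int_mul_two_pi]; exact h.sup i, h.tv, fun i => ?_⟩
  rcases h.step i with ⟨a, b, c, d, k, e, f⟩ | ⟨a, b, c⟩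
  · refine Or.inl ⟨a, by linarith, c, fun ω p q => ?_, k - 24 * m, ?_, ?_⟩
    · have := d (ω + m * (2 * Real.pi)) (by linarith) (by linarith)
      rwa [Real.cos_add_int_mul_two_pi] at this
    · push_cast; linarith
    · push_cast; linarith
  · exact Or.inr ⟨by rw [a], by rwa [Real.cos_sub_int_mul_two_pi],
      by rwa [Real.sin_sub_int_mul_two_pi]⟩

theorem datE_of (h : Samp L ε n ψ x) (n4 : 4 ≤ n) (e0 : 0 < ε) (e1 : ε < 1)
    (near : ∀ i, dist (P i) (smp (ρ + r) ψ x i) ≤ r + ε) {a : ℕ} {X : Set ℂ} (t : ℝ) (m : ℤ)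
    {ψ' : ℕ → ℝ} (e : ∀ i, ψ i = ψ' i + t) (F : FanS P ψ' a (a + n) c X)
    (lo : m * (2 * Real.pi) ≤ ψ a) (hi : ψ a ≤ m * (2 * Real.pi) + Real.pi) :
    ∀ z ∈ X, DatE L ρ r ε c z := by
  obtain ⟨A, sm, mk⟩ := F
  intro z hz
  obtain ⟨j, hj⟩ := mk z hz
  refine ⟨n, _, x, P, A, a, j, h.sub m, n4, e0, e1, fun i => ?_, fun i k a1 a2 a3 q => ?_, hj,
    by linarith, by linarith⟩
  · convert near i using 2
    apply Complex.ext <;>
      simp only [smp_re, smp_im, Real.cos_sub_int_mul_two_pi, Real.sin_sub_int_mul_two_pi]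
  · have := sm i k a1 a2 a3 q
    unfold Sm at this ⊢
    simp only [e]
    linarith

theorem datE_of_fan (h : Samp L ε n ψ x) (n4 : 4 ≤ n) (e0 : 0 < ε) (e1 : ε < 1)
    (near : ∀ i, dist (P i) (smp (ρ + r) ψ x i) ≤ r + ε) {a : ℕ} {X : Set ℂ}
    (F : FanAt P ψ n a c X) : (∀ z ∈ X, DatE L ρ r ε c z) ∨ ∀ z ∈ X, DatE L ρ r ε c (-z) := by
  have pi : 0 < 2 * Real.pi := Real.two_pi_pos
  have f1 := (le_div_iff₀ pi).1 (Int.floor_le (ψ a / (2 * Real.pi)))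
  have f2 := (div_lt_iff₀ pi).1 (Int.lt_floor_add_one (ψ a / (2 * Real.pi)))
  rcases le_total (ψ a) (⌊ψ a / (2 * Real.pi)⌋ * (2 * Real.pi) + Real.pi) with g | g
  · exact Or.inl (datE_of h n4 e0 e1 near 0 _ (fun i => (add_zero _).symm) F.both.1 f1 g)
  · refine Or.inr fun z hz => datE_of h.neg n4 e0 e1 (fun i => ?_) Real.pi
      (⌊ψ a / (2 * Real.pi)⌋ + 1) (fun i => rfl) F.both.2 (by push_cast; linarith)
      (by push_cast; linarith) _ ⟨z, hz, rfl⟩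
    rw [← dist_neg_neg, neg_neg]
    convert near i using 2
    apply Complex.ext <;> simp [smp_re, smp_im]
    ring

theorem core_of_nonFan (h : Par L ρ r θ) (nf : NonFan L ρ r θ) : Core L ρ r θ := by
  classical
  intro S hS hc hin cov hle
  obtain ⟨δ, K, δ0, nf⟩ := nf
  have fin : μH[1] S ≠ ⊤ := ne_top_of_le_ne_top ENNReal.ofReal_ne_top hle
  have L0 : 0 ≤ Lst L ρ r θ := by unfold Lst; linarith [h.mu0, h.lt_Uh, h.hL]
  have H1 : (μH[1] S).toReal ≤ Lst L ρ r θ := ENNReal.toReal_le_of_le_ofReal L0 hle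
  have key : ∀ z1 ∈ S, ∀ z2 ∈ S, ∀ ε0, 0 < ε0 → ∃ ε c, 0 < ε ∧ ε ≤ ε0 ∧
      c ≤ (μH[1] S).toReal + ε ∧ ((DatE L ρ r ε c z1 ∧ DatE L ρ r ε c z2) ∨
        (DatE L ρ r ε c (-z1) ∧ DatE L ρ r ε c (-z2))) := by
    intro z1 h1 z2 h2 ε0 p0
    obtain ⟨ε, e0, e1, e2, e3⟩ : ∃ ε, 0 < ε ∧ ε ≤ ε0 ∧ ε ≤ 1 / 2 ∧ (|K| + 2) * ε ≤ δ :=
      ⟨min ε0 (min (1 / 2) (δ / (|K| + 2))), by positivity, min_le_left _ _,
        (min_le_right _ _).trans (min_le_left _ _),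
        (le_div_iff₀' (by positivity)).1 ((min_le_right _ _).trans (min_le_right _ _))⟩
    obtain ⟨n, ψ, x, n4, sp⟩ := exists_samp h.hL e0
    obtain ⟨P, p1, p2, a, b, e, y, c1, c2, c3, X1, X2, X3, t1, t2, t3, u1, u2, u3, u4, u5⟩ :=
      sp.reduce (by omega) h.hL (add_pos h.ρ0 h.hr) e0 (by linarith) h.hr.le hS hc fin hin cov
        {z1, z2} (by rw [Finset.coe_pair]; exact pair_subset h1 h2)
    refine ⟨ε, _, e0, e1, u4, ?_⟩
    rcases nf ε n ψ x P e0 (by linarith) sp p1 p2 a b e y c1 c2 c3 X1 X2 X3 t1 t2 t3 u1 u2 u3 with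
      ⟨p, F⟩ | F
    · exact (datE_of_fan sp n4 e0 (by linarith) p2 F).imp
        (fun g => ⟨g _ (u5 (by simp)), g _ (u5 (by simp))⟩)
        fun g => ⟨g _ (u5 (by simp)), g _ (u5 (by simp))⟩
    · nlinarith [mul_le_mul_of_nonneg_right (le_abs_self K) e0.le]
  obtain ⟨z0, hz0⟩ := hc.nonempty
  constructor
  · rw [← ENNReal.ofReal_toReal fin]
    refine ENNReal.ofReal_le_ofReal (le_of_forall_pos_le_add fun η η0 => ?_)
    have k0 : 0 < 4 * L + 9 * (ρ + r) + 12 := by linarith [h.hL, h.ρ0, h.hr]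
    obtain ⟨ε, c, e0, e1, e2, D⟩ := key z0 hz0 z0 hz0 (min θ (η / (4 * L + 9 * (ρ + r) + 12)))
      (lt_min h.h0 (by positivity))
    have := (le_div_iff₀' k0).1 (e1.trans (min_le_right _ _))
    rcases D with D | D <;> linarith [D.1.low h (e1.trans (min_le_left _ _))]
  obtain ⟨lam, l0, l1, ap⟩ := fan_approx h
  have two : ∀ z1 ∈ S, ∀ z2 ∈ S, ∀ η, 0 < η → (Q L ρ r θ lam η z1 ∧ Q L ρ r θ lam η z2) ∨
      (Q L ρ r θ lam η (-z1) ∧ Q L ρ r θ lam η (-z2)) := by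
    intro z1 h1 z2 h2 η η0
    obtain ⟨a1, b1, c1⟩ := ap z1 η η0
    obtain ⟨a2, b2, c2⟩ := ap z2 η η0
    obtain ⟨a3, b3, c3⟩ := ap (-z1) η η0
    obtain ⟨a4, b4, c4⟩ := ap (-z2) η η0
    obtain ⟨ε, c, -, e1, e2, D⟩ := key z1 h1 z2 h2 (min (min a1 a2) (min a3 a4)) (by positivity)
    simp only [le_min_iff] at e1
    have e3 : c ≤ Lst L ρ r θ + ε := by linarith
    exact D.imp (fun D => ⟨c1 _ _ D.1 e1.1.1 e3, c2 _ _ D.2 e1.1.2 e3⟩)
      fun D => ⟨c3 _ _ D.1 e1.2.1 e3, c4 _ _ D.2 e1.2.2 e3⟩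
  by_cases g : ∀ z ∈ S, ∀ η, 0 < η → Q L ρ r θ lam η z
  · exact Or.inl fun z hz => (Q.lim (g z hz)).mem h l0 l1
  · push Not at g
    obtain ⟨z1, h1, η1, p1, q1⟩ := g
    refine Or.inr fun z hz => (Q.lim fun η η0 => ?_).mem h l0 l1
    rcases two z1 h1 z hz (min η η1) (lt_min η0 p1) with k | k
    · exact absurd (k.1.mono (min_le_right _ _)) q1
    · exact k.2.mono (min_le_left _ _)

/-- The exact threshold, given the margin for trees that are not fans. -/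
theorem exact_of_nonFan (hr : 0 < r)
    (nf : ∀ L ρ θ, Par L ρ r θ → (√6 - √2) * r < ρ → NonFan L ρ r θ) :
    IsLUB {C : ℝ | 1 < C ∧ ∃ a b : Plane, a ≠ b ∧ ∃ S : Set Plane,
      IsMinimizer r (stadium (C * r) a b) S ∧ ¬ IsHorseshoe r (C * r) a b S} (1 + √6 - √2) :=
  exact_of_core hr fun L ρ θ h g => core_of_nonFan h (nf L ρ θ h g)

end Pool.Agent.Lib.MP_4b56aa_gt.Fan
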