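import Pool.Agent.Lib.MP_4b56aa_gt.Fan.FPos

namespace Pool.Agent.Lib.MP_4b56aa_gt.Fan

open Set Pool.Agent.Lib.MP_4b56aa_gt.Red Pool.Agent.Lib.MP_4b56aa_gt.Out

/-- A point on the tangent line of the inner curve with normal angle `ω`. -/
noncomputable def pt (ρ ω y s : ℝ) : ℂ := y + ρ * nv ω + s * tg ω

theorem pt_re (ρ ω y s : ℝ) : (pt ρ ω y s).re = y + ρ * Real.cos ω - s * Real.sin ω := by
  simp only [pt, Complex.add_re, Complex.ofReal_re, Complex.re_ofReal_mul, nv_re, tg_re]; ring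

theorem pt_im (ρ ω y s : ℝ) : (pt ρ ω y s).im = ρ * Real.sin ω + s * Real.cos ω := by
  simp only [pt, Complex.add_im, Complex.ofReal_im, Complex.im_ofReal_mul, nv_im, tg_im]; ring

/-- The parameters for which `pt` lies on the horseshoe. -/
def An (L ρ r θ ω y s : ℝ) : Prop :=
  Real.pi / 2 + θ ≤ ω ∧ ω ≤ Real.pi / 2 + 2 * Real.pi - θ ∧ |y| ≤ L ∧
    y * Real.cos ω = L * |Real.cos ω| ∧ |s| ≤ mu L ρ r θ ∧ 0 ≤ s * (ω - (Real.pi / 2 + θ)) ∧
    0 ≤ s * (ω - (Real.pi / 2 + 2 * Real.pi - θ))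

/-- The clamped angle of a face. -/
noncomputable def ph (ψ : ℕ → ℝ) (θ : ℝ) (i : ℕ) : ℝ :=
  cl (Real.pi / 2 + θ) (Real.pi / 2 + 2 * Real.pi - θ) (ψ i)

/-- The slack `σ` is small compared with the window `η`. -/
structure Sml (ρ r θ σ η : ℝ) : Prop where
  s1 : 4 * σ ≤ θ
  s2 : 8 * (r + 1) * σ < η ^ 3
  s3 : 2 * (ρ + r + 2) * σ ≤ η
  s4 : η ≤ 1 / 16
  s5 : 0 < η

variable {L ρ r ε θ c σ η : ℝ} {n a j : ℕ} {ψ x : ℕ → ℝ} {P : ℕ → ℂ} {A : Set ℕ} {z : ℂ}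

theorem close_of_dot {d g : ℂ} {r s η : ℝ} (hr : 0 ≤ r) (hd : ‖d‖ ≤ r) (hg : ‖g‖ = 1)
    (h : dot g d + r ≤ s) (hη : 0 ≤ η) (hs : 2 * r * s ≤ η ^ 2) : ‖d + r * g‖ ≤ η := by
  refine le_of_sq_le_sq₀' hη (le_trans ?_ hs)
  have d2 := pow_le_pow_left₀ (norm_nonneg _) hd 2
  have g2 : ‖g‖ ^ 2 = 1 := by rw [hg, one_pow]
  rw [Complex.sq_norm, Complex.normSq_apply] at d2 g2 ⊢
  simp only [dot, Complex.add_re, Complex.add_im, Complex.re_ofReal_mul, Complex.im_ofReal_mul] at h ⊢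
  have : r ^ 2 * (g.re * g.re + g.im * g.im) = r ^ 2 := by rw [g2, mul_one]
  nlinarith [mul_le_mul_of_nonneg_left h hr]

theorem chord_ge {a b : ℝ} (h0 : a ≤ b) (h1 : b - a ≤ 1) : (b - a) / 2 ≤ ‖tg a - tg b‖ := by
  refine le_of_sq_le_sq₀' (norm_nonneg _) ?_
  have pi := Real.pi_gt_three
  have := Real.cos_le_one_sub_mul_cos_sq (x := a - b) (abs_le.2 ⟨by linarith, by linarith⟩)
  have k : 1 / 8 ≤ 2 / Real.pi ^ 2 := by
    rw [le_div_iff₀ (by positivity)]; nlinarith [Real.pi_le_four]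
  rw [norm_tg_sq]
  nlinarith [mul_le_mul_of_nonneg_right k (sq_nonneg (a - b))]

theorem tg_sub (a b : ℝ) : tg a - tg b = (2 * Real.sin ((b - a) / 2) : ℝ) * nv ((b + a) / 2) := by
  apply Complex.ext
  · rw [Complex.sub_re, tg_re, tg_re, Complex.re_ofReal_mul, nv_re, ← Real.sin_sub_sin]; ring
  · rw [Complex.sub_im, tg_im, tg_im, Complex.im_ofReal_mul, nv_im, Real.cos_sub_cos,
      show (a - b) / 2 = -((b - a) / 2) by ring, Real.sin_neg, add_comm a b]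
    ring

theorem Par.ab (h : Par L ρ r θ) : Real.pi / 2 + θ + 3 < Real.pi / 2 + 2 * Real.pi - θ := by
  linarith [h.h1, Real.pi_gt_three]

theorem ph_mem (h : Par L ρ r θ) (i : ℕ) :
    Real.pi / 2 + θ ≤ ph ψ θ i ∧ ph ψ θ i ≤ Real.pi / 2 + 2 * Real.pi - θ :=
  cl_mem (by linarith [Par.ab h]) _

theorem W_mid {i : ℕ} (h1 : a < i) (h2 : i < a + n) : W ψ θ a n i = tg (ph ψ θ i) := fld_mid h1 h2

namespace Tight

variable (T : Tight L ρ r θ σ ε n ψ x P A a j c z) (S : Sml ρ r θ σ η)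
include T

theorem mono : Monotone (ph ψ θ) := fun _ _ h => (cl_step (T.samp.monotone h)).1

theorem step (i : ℕ) : ph ψ θ (i + 1) ≤ ph ψ θ i + ε := by
  have := (cl_step (α := Real.pi / 2 + θ) (β := Real.pi / 2 + 2 * Real.pi - θ) (T.samp.mono i)).2.1
  unfold ph
  linarith [T.samp.meshψ i]

theorem ex_le {s : Finset ℕ} (hs : s ⊆ Finset.Ico a (a + n)) :
    ∑ i ∈ s, ex P (smp (ρ + r) ψ x) (W ψ θ a n) (r + ε) i ≤ σ := by
  have := Finset.sum_le_sum_of_subset_of_nonneg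
    (f := ex P (smp (ρ + r) ψ x) (W ψ θ a n) (r + ε)) hs fun i _ _ => ex_nonneg (T.near i)
  have k : val P (W ψ θ a n) a (a + n) 0 ≤ c := T.toDat.val_le
  linarith [T.low]

theorem base : c - σ ≤ val P (W ψ θ a n) a (a + n) 0 := by
  linarith [T.low, T.toDat.ex_sum (W ψ θ a n) (Finset.Ico a (a + n))]

include S

theorem ph_first : ph ψ θ (a + 1) = Real.pi / 2 + θ :=
  cl_lo (by linarith [T.samp.meshψ a, (abs_le.1 T.ang).2, T.es, S.s1, T.par.h0])

theorem ph_last {b : ℕ} (hb : a + n = b + 1) : ph ψ θ b = Real.pi / 2 + 2 * Real.pi - θ :=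
  cl_hi (by linarith [Par.ab T.par]) (by
    have := T.samp.perψ a
    rw [hb] at this
    linarith [T.samp.meshψ b, (abs_le.1 T.ang).1, T.es, S.s1, T.par.h0])

theorem sq_le : 2 * (r + ε) * σ ≤ η ^ 2 := by
  have := T.e0.trans_le T.es
  nlinarith [S.s2, S.s4, S.s5, T.e1, T.par.hr, mul_pos S.s5 S.s5]

theorem near_top {i : ℕ} {m : ℝ} (h1 : |x i| ≤ 2 * σ) (h2 : |ψ i - m| ≤ 2 * σ)
    (hm : nv m = Complex.I) {g : ℂ} (hg : ‖g‖ = 1) (h : dot g (P i - smp (ρ + r) ψ x i) + (r + ε) ≤ σ) :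
    ‖P i - (((ρ + r : ℝ) : ℂ) * Complex.I - r * g)‖ ≤ 2 * η := by
  have R0 := (add_pos T.par.ρ0 T.par.hr).le
  have k := close_of_dot (by linarith [T.e0, T.par.hr]) ((dist_eq_norm _ _).symm.trans_le (T.near i)) hg h S.s5.le
    (T.sq_le S)
  have e : P i - (((ρ + r : ℝ) : ℂ) * Complex.I - r * g) =
      (P i - smp (ρ + r) ψ x i + ((r + ε : ℝ) : ℂ) * g) +
        (x i + ((ρ + r : ℝ) : ℂ) * (nv (ψ i) - nv m) - ε * g) := by
    rw [hm, smp]; push_cast; ring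
  have b : ‖(x i : ℂ) + ((ρ + r : ℝ) : ℂ) * (nv (ψ i) - nv m) - ε * g‖ ≤
      2 * σ + (ρ + r) * (2 * σ) + ε := by
    refine (norm_sub_le _ _).trans (add_le_add ((norm_add_le _ _).trans (add_le_add ?_ ?_)) ?_)
    · rwa [Complex.norm_real]
    · rw [norm_mul, Complex.norm_real, Real.norm_of_nonneg R0]
      exact mul_le_mul_of_nonneg_left ((norm_nv_sub _ _).trans h2) R0
    · rw [norm_mul, hg, mul_one, Complex.norm_real, Real.norm_of_nonneg T.e0.le]
  rw [e]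
  linarith [norm_add_le (P i - smp (ρ + r) ψ x i + ((r + ε : ℝ) : ℂ) * g)
    (x i + ((ρ + r : ℝ) : ℂ) * (nv (ψ i) - nv m) - ε * g), S.s3, T.es, T.e0]

theorem tipL : An L ρ r θ (Real.pi / 2 + θ) (-L) (-mu L ρ r θ) ∧
    ‖P a - pt ρ (Real.pi / 2 + θ) (-L) (-mu L ρ r θ)‖ ≤ 2 * η := by
  have h := T.par
  have n4 := T.n4
  have σ0 := T.e0.trans_le T.es
  have c1 : Real.cos (Real.pi / 2 + θ) = -Real.sin θ := by rw [add_comm, Real.cos_add_pi_div_two]
  have c2 : Real.sin (Real.pi / 2 + θ) = Real.cos θ := by rw [add_comm, Real.sin_add_pi_div_two]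
  refine ⟨⟨le_rfl, by linarith [Par.ab h], by rw [abs_neg, abs_of_pos h.hL], by
    rw [c1, abs_neg, abs_of_pos h.sin0]; ring, by rw [abs_neg, abs_of_pos h.mu0], by simp,
    by nlinarith [Par.ab h, h.mu0]⟩, ?_⟩
  have k := T.ex_le (s := {a}) (by simp; omega)
  rw [Finset.sum_singleton, ex, W_mid (i := a + 1) (by omega) (by omega), T.ph_first S,
    show W ψ θ a n a = 0 from if_pos (Or.inl rfl), zero_sub, norm_neg, norm_tg, mul_one] at k
  convert T.near_top S (m := Real.pi / 2) (by linarith [T.foot]) (by linarith [T.ang])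
    (by simp [nv]) (by rw [norm_neg, norm_tg]) k using 3
  have e := Real.sin_sq_add_cos_sq θ
  apply Complex.ext <;> simp [pt_re, pt_im, tg_re, tg_im, c1, c2, mu]
  · linear_combination L * e - Real.sin θ * h.rel
  · linear_combination (ρ + r) * e + Real.cos θ * h.rel

theorem tipR {b : ℕ} (hb : a + n = b + 1) :
    An L ρ r θ (Real.pi / 2 + 2 * Real.pi - θ) L (mu L ρ r θ) ∧
    ‖P b - pt ρ (Real.pi / 2 + 2 * Real.pi - θ) L (mu L ρ r θ)‖ ≤ 2 * η := by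
  have h := T.par
  have n4 := T.n4
  have e0 : Real.pi / 2 + 2 * Real.pi - θ = Real.pi / 2 - θ + 2 * Real.pi := by ring
  have c1 : Real.cos (Real.pi / 2 + 2 * Real.pi - θ) = Real.sin θ := by
    rw [e0, Real.cos_add_two_pi, Real.cos_pi_div_two_sub]
  have c2 : Real.sin (Real.pi / 2 + 2 * Real.pi - θ) = Real.cos θ := by
    rw [e0, Real.sin_add_two_pi, Real.sin_pi_div_two_sub]
  refine ⟨⟨by linarith [Par.ab h], le_rfl, by rw [abs_of_pos h.hL], by
    rw [c1, abs_of_pos h.sin0], by rw [abs_of_pos h.mu0], by nlinarith [Par.ab h, h.mu0],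
    by simp⟩, ?_⟩
  have k := T.ex_le (s := {b}) (by simp; omega)
  rw [Finset.sum_singleton, ex, W_mid (i := b) (by omega) (by omega), T.ph_last S hb,
    show W ψ θ a n (b + 1) = 0 from if_pos (Or.inr hb.symm), sub_zero, norm_tg, mul_one] at k
  have pψ := T.samp.perψ a
  have px := T.samp.perx a
  rw [hb] at pψ px
  have m1 := abs_le.1 (T.samp.meshx b)
  have m2 := abs_le.1 T.foot
  have m3 := abs_le.1 T.ang
  have es := T.es
  convert T.near_top S (m := Real.pi / 2 + 2 * Real.pi) (abs_le.2 ⟨by linarith, by linarith⟩)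
    (abs_le.2 ⟨by linarith [T.samp.meshψ b], by linarith [T.samp.mono b, T.e0]⟩)
    (by rw [nv_two_pi]; simp [nv]) (norm_tg _) k using 3
  have e := Real.sin_sq_add_cos_sq θ
  apply Complex.ext <;> simp [pt_re, pt_im, tg_re, tg_im, c1, c2, mu]
  · linear_combination (-L) * e + Real.sin θ * h.rel
  · linear_combination (ρ + r) * e + Real.cos θ * h.rel

theorem window {ω0 : ℝ} (h1 : Real.pi / 2 + θ ≤ ω0) (h2 : ω0 + η ≤ Real.pi / 2 + 2 * Real.pi - θ) :
    ∃ k ω, a < k ∧ k + 1 < a + n ∧ ω0 ≤ ph ψ θ k ∧ ph ψ θ k < ω ∧ ω < ph ψ θ (k + 1) ∧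
      ph ψ θ (k + 1) ≤ ω0 + η ∧ An L ρ r θ ω (x k) 0 ∧ ‖P k - pt ρ ω (x k) 0‖ ≤ 2 * η := by
  have h := T.par
  have n4 := T.n4
  have e0 := T.e0
  have es := T.es
  have hr := h.hr
  have hρ := h.ρ0
  have η0 := S.s5
  have e4 : 4 * ε ≤ η := by nlinarith [S.s3]
  obtain ⟨b, hb⟩ : ∃ b, a + n = b + 1 := ⟨a + n - 1, by omega⟩
  obtain ⟨k2, p1, p2, p3, p4⟩ := exists_near e0.le T.step (show a + 1 ≤ b by omega)
    (ω := ω0 + η) (by rw [T.ph_first S]; linarith) (by rw [T.ph_last S hb]; exact h2)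
  obtain ⟨k1, q1, q2, q3, q4⟩ := exists_near e0.le T.step p1 (ω := ω0 + ε)
    (by rw [T.ph_first S]; linarith) (by linarith)
  set s := η ^ 2 / (2 * (r + 1)) with hs
  have s0 : 0 < s := by positivity
  have s1 : s * (2 * (r + 1)) = η ^ 2 := div_mul_cancel₀ _ (by positivity)
  obtain ⟨k, k3, k4, lt, k5⟩ : ∃ k, k1 ≤ k ∧ k < k2 ∧ ph ψ θ k < ph ψ θ (k + 1) ∧
      ex P (smp (ρ + r) ψ x) (W ψ θ a n) (r + ε) k ≤ s * ‖tg (ph ψ θ k) - tg (ph ψ θ (k + 1))‖ := by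
    by_contra con
    push Not at con
    have u1 : ∑ i ∈ Finset.Ico k1 k2, s * dist (tg (ph ψ θ i)) (tg (ph ψ θ (i + 1))) ≤
        ∑ i ∈ Finset.Ico k1 k2, ex P (smp (ρ + r) ψ x) (W ψ θ a n) (r + ε) i :=
      Finset.sum_le_sum fun i hi => by
        rcases (T.mono (Nat.le_succ i)).eq_or_lt with e | l
        · rw [← e, dist_self, mul_zero]; exact ex_nonneg (T.near i)
        · rw [dist_eq_norm]
          exact (con i (Finset.mem_Ico.1 hi).1 (Finset.mem_Ico.1 hi).2 l).le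
    have u2 := dist_le_Ico_sum_dist (fun i => tg (ph ψ θ i)) q2
    have u3 := chord_ge (T.mono q2) (by linarith [S.s4])
    have u4 := T.ex_le (Finset.Ico_subset_Ico (show a ≤ k1 by omega) (show k2 ≤ a + n by omega))
    rw [← Finset.mul_sum] at u1
    rw [dist_eq_norm] at u2
    have u5 : s * (η / 4) ≤ σ :=
      (mul_le_mul_of_nonneg_left (le_trans (by linarith) (u3.trans u2)) s0.le).trans (u1.trans u4)
    nlinarith [S.s2, mul_le_mul_of_nonneg_left u5 (show 0 ≤ 8 * (r + 1) by positivity)]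
  obtain ⟨w1, w2⟩ := (cl_step (T.samp.mono k)).2.2 lt
  change ψ k ≤ ph ψ θ k at w1
  change ph ψ θ (k + 1) ≤ ψ (k + 1) at w2
  have m := T.samp.meshψ k
  set ω := (ph ψ θ (k + 1) + ph ψ θ k) / 2 with hω
  have sp : 0 < 2 * Real.sin ((ph ψ θ (k + 1) - ph ψ θ k) / 2) := mul_pos two_pos
    (Real.sin_pos_of_pos_of_lt_pi (by linarith) (by linarith [T.e1, Real.pi_gt_three]))
  refine ⟨k, ω, by omega, by omega, by linarith [T.mono k3], by linarith, by linarith,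
    (T.mono (show k + 1 ≤ k2 by omega)).trans p4, ⟨by linarith [(ph_mem (ψ := ψ) h k).1],
      by linarith [(ph_mem (ψ := ψ) h (k + 1)).2], T.samp.bnd k, ?_, by simpa using h.mu0.le,
      by simp, by simp⟩, ?_⟩
  · rcases T.samp.step k with g | g
    · exact g.2.2.2.1 ω (by linarith) (by linarith)
    · linarith [g.1]
  rw [ex, W_mid (by omega) (by omega), W_mid (by omega) (by omega), tg_sub, norm_mul, norm_nv,
    mul_one, Complex.norm_real, Real.norm_of_nonneg sp.le] at k5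
  have k6 : dot (nv ω) (P k - smp (ρ + r) ψ x k) + (r + ε) ≤ s := by
    refine le_of_mul_le_mul_right (le_trans (le_of_eq ?_) k5) sp
    simp only [dot, Complex.re_ofReal_mul, Complex.im_ofReal_mul, ← hω]
    ring
  have k7 := close_of_dot (by linarith) ((dist_eq_norm _ _).symm.trans_le (T.near k)) (norm_nv ω) k6 η0.le
    (by nlinarith [T.e1])
  have e : P k - pt ρ ω (x k) 0 = (P k - smp (ρ + r) ψ x k + ((r + ε : ℝ) : ℂ) * nv ω) +
      (((ρ + r : ℝ) : ℂ) * (nv (ψ k) - nv ω) - ε * nv ω) := by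
    rw [smp, pt]; push_cast; ring
  have b2 : ‖((ρ + r : ℝ) : ℂ) * (nv (ψ k) - nv ω) - ε * nv ω‖ ≤ (ρ + r) * ε + ε := by
    refine (norm_sub_le _ _).trans (add_le_add ?_ ?_)
    · rw [norm_mul, Complex.norm_real, Real.norm_of_nonneg (by linarith)]
      exact mul_le_mul_of_nonneg_left ((norm_nv_sub _ _).trans
        (abs_le.2 ⟨by linarith, by linarith⟩)) (by linarith)
    · rw [norm_mul, norm_nv, mul_one, Complex.norm_real, Real.norm_of_nonneg e0.le]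
  rw [e]
  refine (norm_add_le _ _).trans ?_
  nlinarith [S.s3, mul_le_mul_of_nonneg_left es (show 0 ≤ ρ + r by linarith)]

end Tight

end Pool.Agent.Lib.MP_4b56aa_gt.Fan
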