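import Pool.Agent.Lib.MP_4b56aa_gt.Out.ODefs

/-! Samplings of the stadium, fans of interval trees and the non-fan margin. -/

namespace Pool.Agent.Lib.MP_4b56aa_gt.Fan

open Set Pool.Agent.Lib.MP_4b56aa_gt.Red Pool.Agent.Lib.MP_4b56aa_gt.Out

/-- A cyclic sampling of mesh `ε` of the stadia around `[-L, L]`: the `i`-th sample has outer
normal of argument `ψ i` and nearest point `x i` on the segment. -/
structure Samp (L ε : ℝ) (n : ℕ) (ψ x : ℕ → ℝ) : Prop where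
  perψ : ∀ i, ψ (i + n) = ψ i + 2 * Real.pi
  perx : ∀ i, x (i + n) = x i
  mono : ∀ i, ψ i ≤ ψ (i + 1)
  meshψ : ∀ i, ψ (i + 1) ≤ ψ i + ε
  meshx : ∀ i, |x (i + 1) - x i| ≤ ε
  bnd : ∀ i, |x i| ≤ L
  sup : ∀ i, x i * Real.cos (ψ i) = L * |Real.cos (ψ i)|
  tv : 4 * L ≤ ∑ i ∈ Finset.range n, |x (i + 1) - x i|
  step : ∀ i, (x (i + 1) = x i ∧ ψ i < ψ (i + 1) ∧ |x i| = L ∧
      (∀ ω, ψ i ≤ ω → ω ≤ ψ (i + 1) → x i * Real.cos ω = L * |Real.cos ω|) ∧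
      ∃ k : ℤ, k * (Real.pi / 12) ≤ ψ i ∧ ψ (i + 1) ≤ (k + 1) * (Real.pi / 12)) ∨
    (ψ (i + 1) = ψ i ∧ Real.cos (ψ i) = 0 ∧ Real.sin (ψ i) * (x (i + 1) - x i) < 0)

/-- The sample points on the stadium of radius `R`. -/
noncomputable def smp (R : ℝ) (ψ x : ℕ → ℝ) (i : ℕ) : ℂ := x i + R * nv (ψ i)

/-- The chord between the faces `s` and `t` is small. -/
def Sm (ψ : ℕ → ℝ) (s t : ℕ) : Prop := ψ t - ψ s ≤ Real.pi / 3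

/-- Interval trees all of whose edges separate faces related by `Rel`. -/
inductive ITR (Rel : ℕ → ℕ → Prop) (P : ℕ → ℂ) : ℕ → ℕ → ℂ → ℝ → Set ℂ → Prop
  | leaf (s : ℕ) : ITR Rel P s (s + 1) (P s) 0 {P s}
  | move {s t : ℕ} {x : ℂ} {c : ℝ} {X : Set ℂ} (y : ℂ) :
      ITR Rel P s t x c X → Rel s t → ITR Rel P s t y (c + dist x y) X
  | join {s m t : ℕ} {x : ℂ} {c d : ℝ} {X Y : Set ℂ} :
      ITR Rel P s m x c X → ITR Rel P m t x d Y → ITR Rel P s t x (c + d) (X ∪ Y)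
  | spur {s t : ℕ} {x : ℂ} {c : ℝ} {X : Set ℂ} (d : ℝ) (Y : Set ℂ) :
      ITR Rel P s t x c X → 0 ≤ d → (∀ z ∈ Y, dist x z ≤ d) → ITR Rel P s t x (c + d) (X ∪ Y)

/-- No element of `A` lies strictly between `i` and `k`. -/
def Pc (A : Set ℕ) (i k : ℕ) : Prop := ∀ u ∈ A, u ≤ i ∨ k ≤ u

/-- A fan with apex `s`: small pieces between consecutive faces of `A`, all other edges
separate `s` from a face of `A`. -/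
def FL (P : ℕ → ℂ) (ψ : ℕ → ℝ) (s t : ℕ) (y : ℂ) (c : ℝ) (X : Set ℂ) : Prop :=
  ∃ A : Set ℕ, (∀ u ∈ A, u ≤ t) ∧ t ∈ A ∧
    (∀ i k, s ≤ i → i ≤ k → k ≤ t → Pc A i k → Sm ψ i k) ∧
    ITR (fun i k => Pc A i k ∨ (i = s ∧ k ∈ A)) P s t y c X

/-- A fan with apex `t`. -/
def FR (P : ℕ → ℂ) (ψ : ℕ → ℝ) (s t : ℕ) (y : ℂ) (c : ℝ) (X : Set ℂ) : Prop :=
  ∃ A : Set ℕ, (∀ u ∈ A, s ≤ u) ∧ s ∈ A ∧
    (∀ i k, s ≤ i → i ≤ k → k ≤ t → Pc A i k → Sm ψ i k) ∧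
    ITR (fun i k => Pc A i k ∨ (k = t ∧ i ∈ A)) P s t y c X

/-- The whole tree is a fan with apex `a`. -/
def FanAt (P : ℕ → ℂ) (ψ : ℕ → ℝ) (n a : ℕ) (c : ℝ) (X : Set ℂ) : Prop :=
  ∃ (m : ℕ) (y : ℂ) (c1 c2 : ℝ) (X1 X2 : Set ℂ), FL P ψ a m y c1 X1 ∧ FR P ψ m (a + n) y c2 X2 ∧
    c1 + c2 = c ∧ X1 ∪ X2 = X

/-- Trees that are not fans are longer than the horseshoe by a fixed margin. -/
def NonFan (L ρ r θ : ℝ) : Prop :=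
  ∃ δ K : ℝ, 0 < δ ∧ ∀ (ε : ℝ) (n : ℕ) (ψ x : ℕ → ℝ) (P : ℕ → ℂ), 0 < ε → ε < 1 →
    Samp L ε n ψ x → (∀ i, P (i + n) = P i) → (∀ i, dist (P i) (smp (ρ + r) ψ x i) ≤ r + ε) →
    ∀ (a b e : ℕ) (y : ℂ) (c1 c2 c3 : ℝ) (X1 X2 X3 : Set ℂ),
      IT P a b y c1 X1 → IT P b e y c2 X2 → IT P e (a + n) y c3 X3 →
      ψ b - ψ a ≤ Real.pi → ψ e - ψ b ≤ Real.pi → ψ (a + n) - ψ e < Real.pi →
      (∃ p, FanAt P ψ n p (c1 + c2 + c3) (X1 ∪ X2 ∪ X3)) ∨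
        Lst L ρ r θ + δ - K * ε ≤ c1 + c2 + c3

end Pool.Agent.Lib.MP_4b56aa_gt.Fan
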