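import Pool.Agent.Lib.MP_4b56aa_gt.Fan.FMark

namespace Pool.Agent.Lib.MP_4b56aa_gt.Fan

open Set Pool.Agent.Lib.MP_4b56aa_gt.Red Pool.Agent.Lib.MP_4b56aa_gt.Out

variable {L ρ r θ lam : ℝ} {z : ℂ}

theorem An.mem (h : Par L ρ r θ) {ω y s : ℝ} (g : An L ρ r θ ω y s) : pt ρ ω y s ∈ Hs L ρ r θ := by
  have pi := Real.pi_pos
  have h1 := h.h1
  have ab := Par.ab h
  obtain ⟨s1, s2⟩ := abs_le.1 g.2.2.2.2.1
  rcases lt_trichotomy s 0 with c | rfl | c
  · obtain rfl : ω = Real.pi / 2 + θ := by nlinarith [g.1, g.2.2.2.2.2.1]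
    rw [g.left h (by linarith)]
    convert h.mir_mem (h.mem_armR (s := -s) (by linarith) (by linarith)) using 1
    apply Complex.ext <;> simp only [mir, pt_re, pt_im, add_comm (Real.pi / 2),
      Real.cos_add_pi_div_two, Real.sin_add_pi_div_two] <;> ring
  · rcases lt_trichotomy ω (Real.pi + Real.pi / 2) with c | rfl | c
    · rw [g.left h c]
      convert h.mir_mem (h.mem_right (ψ := Real.pi - ω) (by linarith) (by linarith [g.1])) using 1
      apply Complex.ext <;> simp [mir, pt_re, pt_im, nv_re, nv_im]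
      ring
    · convert h.mem_bot (abs_le.1 g.2.2.1).1 (abs_le.1 g.2.2.1).2 using 1
      apply Complex.ext <;> simp [pt_re, pt_im, add_comm Real.pi, Real.cos_add_pi, Real.sin_add_pi]
    · rw [g.right h c]
      convert h.mem_right (ψ := ω - 2 * Real.pi) (by linarith) (by linarith [g.2.1]) using 1
      apply Complex.ext <;> simp [pt_re, pt_im, nv_re, nv_im]
  · obtain rfl : ω = Real.pi / 2 + 2 * Real.pi - θ := by nlinarith [g.2.1, g.2.2.2.2.2.2]
    rw [g.right h (by linarith)]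
    convert h.mem_armR (s := s) c.le s2 using 1
    have e : Real.pi / 2 + 2 * Real.pi - θ = Real.pi / 2 - θ + 2 * Real.pi := by ring
    apply Complex.ext <;> simp only [pt_re, pt_im, e, Real.cos_add_two_pi, Real.sin_add_two_pi,
      Real.cos_pi_div_two_sub, Real.sin_pi_div_two_sub]

theorem ray_of_dot (l0 : 0 < lam) (l1 : lam ≤ 1) {φ : ℝ} {y : ℂ}
    (h : ∀ u : ℂ, ‖u‖ ≤ 1 → ‖u - 1‖ ≤ lam / 4 → dot ((u - 1) * tg φ) y ≤ 0) :
    ∃ p : ℝ, 0 ≤ p ∧ y = p * tg φ := by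
  have e := Real.sin_sq_add_cos_sq φ
  set p := -Real.sin φ * y.re + Real.cos φ * y.im with hp
  set q := -Real.cos φ * y.re - Real.sin φ * y.im with hq
  have k : ∀ t : ℝ, |t| ≤ lam / 8 → t * q ≤ t ^ 2 * p := fun t ht => by
    have t2 : t ^ 2 ≤ (lam / 8) ^ 2 := sq_le_sq' (abs_le.1 ht).1 (abs_le.1 ht).2
    have t3 : t ^ 2 ≤ 1 := by nlinarith
    have := h ⟨1 - t ^ 2, t⟩ (norm_le_of_sq zero_le_one (by simp only; nlinarith [sq_nonneg t]))
      (norm_le_of_sq (by linarith) (by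
        simp only [Complex.sub_re, Complex.sub_im, Complex.one_re, Complex.one_im]
        nlinarith [sq_nonneg t]))
    simp only [dot, Complex.mul_re, Complex.mul_im, Complex.sub_re, Complex.sub_im, Complex.one_re,
      Complex.one_im, tg_re, tg_im] at this
    rw [hp, hq]
    linarith
  have p0 : 0 ≤ p := by
    have a := k (lam / 8) (abs_of_pos (by linarith)).le
    have b := k (-(lam / 8)) (by rw [abs_neg]; exact (abs_of_pos (by linarith)).le)
    have : 0 ≤ (lam / 8) ^ 2 * p := by nlinarith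
    exact nonneg_of_mul_nonneg_right this (by positivity)
  have q0 : q = 0 := by
    by_contra c
    have c0 := abs_pos.2 c
    set t := min (lam / 8) (|q| / (p + 1)) with ht
    have t0 : 0 < t := by positivity
    have t1 := (le_div_iff₀ (by linarith)).1 (min_le_right (lam / 8) (|q| / (p + 1)))
    have a := k t ((abs_of_pos t0).trans_le (min_le_left _ _))
    have b := k (-t) (by rw [abs_neg]; exact (abs_of_pos t0).trans_le (min_le_left _ _))
    have : |q| ≤ t * p := abs_le.2 ⟨by nlinarith, by nlinarith⟩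
    nlinarith
  refine ⟨p, p0, Complex.ext ?_ ?_⟩
  · rw [Complex.re_ofReal_mul, tg_re, hp]
    linear_combination (-y.re) * e - Real.cos φ * (hq.symm.trans q0)
  · rw [Complex.im_ofReal_mul, tg_im, hp]
    linear_combination (-y.im) * e - Real.sin φ * (hq.symm.trans q0)

theorem Q.mem (h : Par L ρ r θ) (l0 : 0 < lam) (l1 : lam ≤ 1) (g : Q L ρ r θ lam 0 z) :
    z ∈ Hs L ρ r θ := by
  obtain ⟨φ, ω1, y1, s1, ω2, y2, s2, a, b, e1, e2, k⟩ := g
  obtain rfl : ω1 = φ := by simpa [sub_eq_zero] using e1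
  obtain rfl : ω2 = ω1 := by simpa [sub_eq_zero] using e2
  obtain ⟨p1, p10, f1⟩ := ray_of_dot l0 l1 fun u u1 u2 => (k u u1 u2).1
  obtain ⟨p2, p20, f2⟩ := ray_of_dot l0 l1 fun u u1 u2 => (k u u1 u2).2
  rcases p10.eq_or_lt with rfl | c
  · rw [Complex.ofReal_zero, zero_mul, sub_eq_zero] at f1
    exact f1 ▸ a.mem h
  have t0 : 0 ≤ p1 / (p1 + p2) := by positivity
  have t1 : p1 / (p1 + p2) ≤ 1 := (div_le_one (by linarith)).2 (by linarith)
  have t2 : p1 / (p1 + p2) * (p1 + p2) = p1 := div_mul_cancel₀ _ (by linarith)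
  set t := p1 / (p1 + p2)
  have cv : ∀ u v m : ℝ, |u| ≤ m → |v| ≤ m → |(1 - t) * u + t * v| ≤ m := fun u v m hu hv =>
    abs_le.2 ⟨by nlinarith [(abs_le.1 hu).1, (abs_le.1 hv).1],
      by nlinarith [(abs_le.1 hu).2, (abs_le.1 hv).2]⟩
  have m : An L ρ r θ ω2 ((1 - t) * y1 + t * y2) ((1 - t) * s1 + t * s2) :=
    ⟨a.1, a.2.1, cv _ _ _ a.2.2.1 b.2.2.1, by linear_combination (1 - t) * a.2.2.2.1 + t * b.2.2.2.1,
      cv _ _ _ a.2.2.2.2.1 b.2.2.2.2.1, by nlinarith [a.2.2.2.2.2.1, b.2.2.2.2.2.1],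
      by nlinarith [a.2.2.2.2.2.2, b.2.2.2.2.2.2]⟩
  convert m.mem h using 1
  have t3 : (t : ℂ) * (p1 + p2) = p1 := by exact_mod_cast t2
  unfold pt at f1 f2 ⊢
  push_cast
  linear_combination (1 - t : ℂ) * f1 - t * f2 - tg ω2 * t3

theorem Q.mono {η η' : ℝ} (g : Q L ρ r θ lam η z) (h : η ≤ η') : Q L ρ r θ lam η' z := by
  obtain ⟨φ, ω1, y1, s1, ω2, y2, s2, a, b, e1, e2, k⟩ := g
  exact ⟨φ, ω1, y1, s1, ω2, y2, s2, a, b, e1.trans h, e2.trans h,
    fun u u1 u2 => ⟨(k u u1 u2).1.trans h, (k u u1 u2).2.trans h⟩⟩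

theorem Q.lim (g : ∀ η, 0 < η → Q L ρ r θ lam η z) : Q L ρ r θ lam 0 z := by
  set B : Set (ℝ × ℝ × ℝ) := {q | An L ρ r θ q.1 q.2.1 q.2.2} with hB
  have B1 : IsClosed B := by
    simp only [hB, An, setOf_and]
    refine .inter ?_ (.inter ?_ (.inter ?_ (.inter (isClosed_eq ?_ ?_) (.inter ?_ (.inter ?_ ?_)))))
    all_goals first | fun_prop | exact isClosed_le (by fun_prop) (by fun_prop)
  have B2 : IsCompact B := (isCompact_Icc.prod (isCompact_Icc.prod isCompact_Icc)).of_isClosed_subset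
    B1 fun q hq => ⟨⟨hq.1, hq.2.1⟩, abs_le.1 hq.2.2.1, abs_le.1 hq.2.2.2.2.1⟩
  set t : ℝ → Set (ℝ × (ℝ × ℝ × ℝ) × (ℝ × ℝ × ℝ)) := fun η => {p | p.2.1 ∈ B ∧ p.2.2 ∈ B ∧
    |p.2.1.1 - p.1| ≤ η ∧ |p.2.2.1 - p.1| ≤ η ∧ ∀ u : ℂ, ‖u‖ ≤ 1 → ‖u - 1‖ ≤ lam / 4 →
      dot ((u - 1) * tg p.1) (z - pt ρ p.2.1.1 p.2.1.2.1 p.2.1.2.2) ≤ η ∧
      dot ((u - 1) * tg p.1) (pt ρ p.2.2.1 p.2.2.2.1 p.2.2.2.2 - z) ≤ η} with ht
  have cl : ∀ η, IsClosed (t η) := fun η => by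
    simp only [ht, setOf_and, setOf_forall]
    refine .inter (B1.preimage (by fun_prop)) (.inter (B1.preimage (by fun_prop)) (.inter ?_
      (.inter ?_ (isClosed_iInter fun u => isClosed_iInter fun _ => isClosed_iInter fun _ =>
        .inter ?_ ?_))))
    all_goals
      refine isClosed_le ?_ continuous_const
      try unfold dot pt tg nv
      fun_prop
  obtain ⟨p, hp⟩ := IsCompact.nonempty_iInter_of_sequence_nonempty_isCompact_isClosed
    (fun i : ℕ => t (1 / ((i : ℝ) + 1)))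
    (fun i p hp => by
      have e : 1 / (((i + 1 : ℕ) : ℝ) + 1) ≤ 1 / ((i : ℝ) + 1) := Nat.one_div_le_one_div i.le_succ
      exact ⟨hp.1, hp.2.1, hp.2.2.1.trans e, hp.2.2.2.1.trans e, fun u u1 u2 =>
        ⟨(hp.2.2.2.2 u u1 u2).1.trans e, (hp.2.2.2.2 u u1 u2).2.trans e⟩⟩)
    (fun i => by
      obtain ⟨φ, ω1, y1, s1, ω2, y2, s2, k⟩ := g _ (Nat.one_div_pos_of_nat (n := i))
      exact ⟨(φ, (ω1, y1, s1), (ω2, y2, s2)), k⟩)
    (((isCompact_Icc (a := Real.pi / 2 + θ - 1) (b := Real.pi / 2 + 2 * Real.pi - θ + 1)).prod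
      (B2.prod B2)).of_isClosed_subset (cl _) fun p hp => by
        have := abs_le.1 hp.2.2.1
        norm_num at this
        exact ⟨⟨by linarith [hp.1.1], by linarith [hp.1.2.1]⟩, hp.1, hp.2.1⟩)
    fun i => cl _
  rw [mem_iInter] at hp
  have z0 : ∀ v : ℝ, (∀ i : ℕ, v ≤ 1 / ((i : ℝ) + 1)) → v ≤ 0 := fun v hv =>
    ge_of_tendsto' tendsto_one_div_add_atTop_nhds_zero_nat hv
  exact ⟨p.1, _, _, _, _, _, _, (hp 0).1, (hp 0).2.1, z0 _ fun i => (hp i).2.2.1,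
    z0 _ fun i => (hp i).2.2.2.1, fun u u1 u2 => ⟨z0 _ fun i => ((hp i).2.2.2.2 u u1 u2).1,
      z0 _ fun i => ((hp i).2.2.2.2 u u1 u2).2⟩⟩

end Pool.Agent.Lib.MP_4b56aa_gt.Fan
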