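import Pool.Agent.Lib.MP_4b56aa_gt.Fan.FAnc

namespace Pool.Agent.Lib.MP_4b56aa_gt.Fan

open Set Pool.Agent.Lib.MP_4b56aa_gt.Red Pool.Agent.Lib.MP_4b56aa_gt.Out

variable {L ρ r ε θ c σ η : ℝ} {n a j : ℕ} {ψ x : ℕ → ℝ} {P : ℕ → ℂ} {A : Set ℕ} {z : ℂ}

theorem val_congr {w w' : ℕ → ℂ} {s t : ℕ} (v : ℂ) (h : ∀ i, s ≤ i → i ≤ t → w' i = w i + v) :
    val P w' s t z = val P w s t z :=
  Finset.sum_congr rfl fun i hi => by
    have := Finset.mem_Ico.1 hi
    rw [h i this.1 this.2.le, h (i + 1) (by omega) this.2, add_sub_add_right_eq_sub]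

theorem val_const {w : ℕ → ℂ} {s t : ℕ} {v : ℂ} (h : ∀ i, s ≤ i → i ≤ t → w i = v) :
    val P w s t z = 0 := by
  rw [val_congr (w := fun _ => 0) v fun i a b => by rw [h i a b, zero_add]]
  simp [val, dot]

theorem val_cut (w : ℕ → ℂ) {s k t : ℕ} (h1 : s ≤ k) (h2 : k < t) :
    val P w s t z = val P w s k z + dot (w k - w (k + 1)) (P k - z) + val P w (k + 1) t z := by
  rw [val_add w h1 h2.le, val_add w (Nat.le_succ k) h2, add_assoc]
  simp [val]

theorem dot_err {u p q : ℂ} {a b : ℝ} (h1 : ‖u‖ ≤ a) (h2 : ‖p - q‖ ≤ b) : dot u p ≤ dot u q + a * b := by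
  have := (dot_le u (p - q)).trans (mul_le_mul h1 h2 (norm_nonneg _) ((norm_nonneg _).trans h1))
  simp only [dot, Complex.sub_re, Complex.sub_im] at this ⊢
  linarith

theorem An.left (h : Par L ρ r θ) {ω y s : ℝ} (g : An L ρ r θ ω y s)
    (c : ω < Real.pi + Real.pi / 2) : y = -L := by
  have cp := Real.cos_neg_of_pi_div_two_lt_of_lt (x := ω) (by linarith [g.1, h.h0]) c
  have := g.2.2.2.1
  rw [abs_of_neg cp, mul_neg, ← neg_mul] at this
  exact mul_right_cancel₀ cp.ne this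

theorem An.right (h : Par L ρ r θ) {ω y s : ℝ} (g : An L ρ r θ ω y s)
    (c : Real.pi + Real.pi / 2 < ω) : y = L := by
  have cp := Real.cos_pos_of_mem_Ioo (x := ω - 2 * Real.pi)
    ⟨by linarith, by linarith [g.2.1, h.h0]⟩
  rw [Real.cos_sub_two_pi] at cp
  have := g.2.2.2.1
  rw [abs_of_pos cp] at this
  exact mul_right_cancel₀ cp.ne' this

theorem feet {ω1 ω2 y1 y2 : ℝ} (h : Par L ρ r θ) (h1 : An L ρ r θ ω1 y1 0) (h2 : An L ρ r θ ω2 y2 0)
    (l : ω1 < ω2) (u : ω2 - ω1 ≤ Real.pi / 3) : (y2 - y1) * Real.sin ω1 ≤ 0 := by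
  have pi := Real.pi_pos
  have neg := fun ω y (g : An L ρ r θ ω y 0) => g.left h
  have pos := fun ω y (g : An L ρ r θ ω y 0) => g.right h
  rcases lt_or_ge (Real.pi + Real.pi / 2) ω1 with c | c
  · rw [pos _ _ h1 c, pos _ _ h2 (c.trans l)]; simp
  rcases lt_or_ge ω2 (Real.pi + Real.pi / 2) with c' | c'
  · rw [neg _ _ h1 (l.trans c'), neg _ _ h2 c']; simp
  have s := Real.sin_nonneg_of_nonneg_of_le_pi (x := ω1 - Real.pi) (by linarith) (by linarith)
  rw [Real.sin_sub_pi] at s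
  refine mul_nonpos_of_nonneg_of_nonpos (sub_nonneg.2 ?_) (by linarith)
  rcases c.eq_or_lt with e | e
  · rw [pos _ _ h2 (e ▸ l)]; exact (abs_le.1 h1.2.2.1).2
  · rw [neg _ _ h1 e]; exact (abs_le.1 h2.2.2.1).1

/-- The point `z` lies, up to `η`, between two points of a face of the horseshoe. -/
def Q (L ρ r θ lam η : ℝ) (z : ℂ) : Prop :=
  ∃ φ ω1 y1 s1 ω2 y2 s2 : ℝ, An L ρ r θ ω1 y1 s1 ∧ An L ρ r θ ω2 y2 s2 ∧ |ω1 - φ| ≤ η ∧
    |ω2 - φ| ≤ η ∧ ∀ u : ℂ, ‖u‖ ≤ 1 → ‖u - 1‖ ≤ lam / 4 →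
      dot ((u - 1) * tg φ) (z - pt ρ ω1 y1 s1) ≤ η ∧ dot ((u - 1) * tg φ) (pt ρ ω2 y2 s2 - z) ≤ η

namespace Tight

variable (T : Tight L ρ r θ σ ε n ψ x P A a j c z) (S : Sml ρ r θ σ η)
include T S

theorem apexL {k : ℕ} (h1 : a ≤ k) (h2 : k ≤ a + n) (p : Pc A a k) (i : ℕ) :
    ph ψ θ k - ph ψ θ i ≤ Real.pi / 3 - θ / 3 := by
  have := T.sm a k le_rfl h1 h2 p
  have m := (ph_mem (ψ := ψ) T.par i).1
  have : ph ψ θ k ≤ Real.pi / 2 + θ + (Real.pi / 3 - θ / 3) :=
    max_le (by linarith [T.par.h1, Real.pi_pos]) ((min_le_left _ _).trans (by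
      unfold Sm at this; linarith [(abs_le.1 T.ang).2, S.s1, T.par.h0]))
  linarith

theorem apexR {i : ℕ} (h1 : a ≤ i) (h2 : i ≤ a + n) (p : Pc A i (a + n)) (k : ℕ) :
    ph ψ θ k - ph ψ θ i ≤ Real.pi / 3 - θ / 3 := by
  have := T.sm i _ h1 h2 le_rfl p
  have m := (ph_mem (ψ := ψ) T.par k).2
  have : Real.pi / 2 + 2 * Real.pi - θ - (Real.pi / 3 - θ / 3) ≤ ph ψ θ i :=
    le_max_of_le_right (le_min (by
      unfold Sm at this; linarith [(abs_le.1 T.ang).1, S.s1, T.par.h0, T.samp.perψ a])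
      (by linarith [T.par.h1, Real.pi_pos]))
  linarith

theorem surplus {l1 : ℝ} (l0 : 0 < l1) (l2 : l1 ≤ 1)
    (hl : ∀ a b : ℝ, |a - b| ≤ Real.pi / 3 - Real.pi / 24 → ‖tg a - tg b‖ ≤ 1 - l1)
    (hg : σ + 4 * η < l1 * (ρ * Real.sin (Real.pi / 24))) {i k : ℕ} (h1 : a < i) (h2 : i < k)
    (h3 : k < a + n) (p : Pc A i k) : ph ψ θ k - ph ψ θ i ≤ Real.pi / 3 - θ / 3 := by
  by_contra con
  push Not at con
  have h := T.par
  have pi := Real.pi_gt_three
  have t1 := h.h1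
  have η0 := S.s5
  have η1 := S.s4
  have mi := ph_mem (ψ := ψ) h i
  have mk := ph_mem (ψ := ψ) h k
  have tn : ∀ i k, a ≤ i → i ≤ k → k ≤ a + n → Pc A i k → ph ψ θ k - ph ψ θ i ≤ Real.pi / 3 :=
    fun i k g1 g2 g3 g => by
      have := (abs_le.1 (T.toDat.turn (α := Real.pi / 2 + θ) (β := Real.pi / 2 + 2 * Real.pi - θ)
        g1 g2 g3 g)).1
      unfold ph; linarith
  obtain ⟨k1, ω1, a1, a2, a3, a4, a5, a6, a7, a8⟩ :=
    T.window S (ω0 := ph ψ θ i + Real.pi / 24) (by linarith) (by linarith)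
  obtain ⟨k2, ω2, b1, b2, b3, b4, b5, b6, b7, b8⟩ :=
    T.window S (ω0 := ph ψ θ k - Real.pi / 24 - η) (by linarith) (by linarith)
  have pi' : 3.14 < Real.pi := Real.pi_gt_d2
  have o1 : i < k1 := T.mono.reflect_lt (by linarith)
  have o2 : k1 < k2 := T.mono.reflect_lt (by linarith)
  have o3 : k2 < k := T.mono.reflect_lt (by linarith)
  set v : ℂ := l1 * tg ω1 with hv
  have nv1 : ‖v‖ = l1 := by
    rw [hv, norm_mul, norm_tg, mul_one, Complex.norm_real, Real.norm_of_nonneg l0.le]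
  set w : ℕ → ℂ := fun u => W ψ θ a n u + if k1 < u ∧ u ≤ k2 then v else 0 with hw
  have feas0 := feas_Fs (ψ := ψ) (α := Real.pi / 2 + θ) (β := Real.pi / 2 + 2 * Real.pi - θ)
    (a := a) (b := a + n) (A := A) zero_le_one fun i k a1 a2 a3 p => by
      simpa using chord_one (T.toDat.turn a1.le a2.le a3.le p)
  have feas : Feas (RelF A a (a + n)) fun u => {w u} := by
    rintro s t (rfl | g) _ rfl _ rfl
    · simp
    have g0 := feas0 s t (Or.inr g) _ (fld_mem le_rfl s) _ (fld_mem le_rfl t)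
    obtain ⟨g1, g2, g3, g4⟩ := g
    have out : ∀ u, k1 < u ∧ u ≤ k2 → u ∉ A := fun u hu hA => by have := p u hA; omega
    simp only [hw]
    split_ifs with c1 c2 c2
    · rwa [add_sub_add_right_eq_sub]
    · have q : Pc A s t := g4.resolve_right fun g =>
        g.elim (fun g => by omega) fun g => out s c1 g.2
      have q' : Pc A i t := fun u hu => by have := p u hu; have := q u hu; omega
      have tb : t < a + n := lt_of_le_of_ne g3 fun e => by
        linarith [T.apexR S h1.le (by omega) (e ▸ q') k]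
      have d := hl (ph ψ θ s) (ph ψ θ t) (abs_le.2 ⟨by
        linarith [tn i t h1.le (by omega) g3 q', T.mono (show k1 ≤ s by omega)],
        by linarith [T.mono g2.le]⟩)
      rw [W_mid (by omega) (by omega), W_mid (by omega) tb, add_zero, add_sub_right_comm]
      linarith [norm_add_le (tg (ph ψ θ s) - tg (ph ψ θ t)) v]
    · have q : Pc A s t := g4.resolve_right fun g =>
        g.elim (fun g => out t c2 g.2) fun g => by omega
      have q' : Pc A s k := fun u hu => by have := p u hu; have := q u hu; omega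
      have sa : a < s := lt_of_le_of_ne g1 fun e => by
        linarith [T.apexL S (show a ≤ k by omega) h3.le (e ▸ q') i]
      have d := hl (ph ψ θ s) (ph ψ θ t) (abs_le.2 ⟨by
        linarith [tn s k g1 (by omega) h3.le q', T.mono (show t ≤ k2 + 1 by omega)],
        by linarith [T.mono g2.le]⟩)
      rw [W_mid sa (by omega), W_mid (by omega) (by omega), add_zero, ← sub_sub]
      linarith [norm_sub_le (tg (ph ψ θ s) - tg (ph ψ θ t)) v]
    · rwa [add_zero, add_zero]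
  have ew : w a = w (a + n) := by
    simp only [hw]; rw [if_neg (by omega), if_neg (by omega)]; simp [W, fld]
  obtain ⟨j1, j2, mk'⟩ := T.mk'
  have up := mk' _ feas w w (fun _ => rfl) (fun _ => rfl) ew
  rw [val_root w j1.le j2.le ew, val_cut w a1.le (by omega),
    val_cut w (show k1 + 1 ≤ k2 by omega) (by omega),
    val_congr (w := W ψ θ a n) 0 fun u _ _ => by simp only [hw]; rw [if_neg (by omega)],
    val_congr (w := W ψ θ a n) (s := k1 + 1) v fun u _ _ => by simp only [hw]; rw [if_pos (by omega)],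
    val_congr (w := W ψ θ a n) (s := k2 + 1) 0 fun u _ _ => by
      simp only [hw]; rw [if_neg (by omega)]] at up
  have lw := T.base
  rw [val_cut _ a1.le (by omega), val_cut _ (show k1 + 1 ≤ k2 by omega) (by omega)] at lw
  simp only [hw] at up
  rw [if_neg (by omega), if_pos (by omega), if_pos (by omega), if_neg (by omega)] at up
  have e1 := dot_err nv1.le a8
  have e2 := dot_err (p := pt ρ ω2 (x k2) 0) nv1.le ((norm_sub_rev _ _).trans_le b8)
  have f := feet h a7 b7 (by linarith) (by linarith [tn i k h1.le h2.le h3.le p])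
  have s := Real.sin_le_sin_of_le_of_le_pi_div_two (x := Real.pi / 24) (y := ω2 - ω1) (by linarith)
    (by linarith [tn i k h1.le h2.le h3.le p]) (by linarith)
  have gain : l1 * (ρ * Real.sin (Real.pi / 24)) ≤
      dot v (pt ρ ω2 (x k2) 0) - dot v (pt ρ ω1 (x k1) 0) := by
    rw [Real.sin_sub] at s
    simp only [hv, dot, Complex.re_ofReal_mul, Complex.im_ofReal_mul, pt_re, pt_im, tg_re, tg_im]
    nlinarith [mul_le_mul_of_nonneg_left s (mul_pos l0 h.ρ0).le, mul_le_mul_of_nonneg_left f l0.le]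
  simp only [dot, Complex.sub_re, Complex.sub_im, Complex.add_re, Complex.add_im, Complex.zero_re,
    Complex.zero_im] at up lw e1 e2 gain
  nlinarith

omit S in
theorem val_small {s t : ℕ} (h1 : a < s) (h2 : s ≤ t) (h3 : t < a + n) :
    val P (W ψ θ a n) s t z ≤ (‖z‖ + L + ρ + 2 * r + 1) * (ph ψ θ t - ph ψ θ s) ∧
      ‖P s - z‖ ≤ ‖z‖ + L + ρ + 2 * r + 1 := by
  have b : ∀ i, ‖P i - z‖ ≤ ‖z‖ + L + ρ + 2 * r + 1 := fun i => by
    have := T.samp.norm_le (add_pos T.par.ρ0 T.par.hr).le i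
    have d := dist_triangle (P i) (smp (ρ + r) ψ x i) 0
    rw [dist_zero_right, dist_zero_right] at d
    linarith [norm_sub_le (P i) z, T.near i, T.e1]
  refine ⟨?_, b s⟩
  rw [← Finset.sum_Ico_sub _ h2, Finset.mul_sum]
  refine Finset.sum_le_sum fun i hi => (dot_le _ _).trans ?_
  have := Finset.mem_Ico.1 hi
  rw [mul_comm, W_mid (by omega) (by omega), W_mid (by omega) (by omega)]
  refine mul_le_mul (b i) ((norm_tg_sub _ _).trans_eq ?_) (norm_nonneg _)
    ((norm_nonneg _).trans (b i))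
  rw [abs_sub_comm, abs_of_nonneg (sub_nonneg.2 (T.mono (Nat.le_succ i)))]

theorem ancL : ∃ k ω y s, a ≤ k ∧ k < j ∧ ph ψ θ j - η ≤ ph ψ θ (k + 1) ∧ An L ρ r θ ω y s ∧
    |ω - ph ψ θ j| ≤ η ∧ ‖P k - pt ρ ω y s‖ ≤ 2 * η := by
  have m := ph_mem (ψ := ψ) T.par j
  rcases le_total (ph ψ θ j) (Real.pi / 2 + θ + η) with g | g
  · exact ⟨a, _, _, _, le_rfl, T.mk'.1, by rw [T.ph_first S]; linarith, (T.tipL S).1,
      abs_le.2 ⟨by linarith, by linarith [S.s5]⟩, (T.tipL S).2⟩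
  · obtain ⟨k, ω, a1, a2, a3, a4, a5, a6, a7, a8⟩ :=
      T.window S (ω0 := ph ψ θ j - η) (by linarith) (by linarith)
    exact ⟨k, ω, _, _, a1.le, T.mono.reflect_lt (by linarith), by linarith, a7,
      abs_le.2 ⟨by linarith, by linarith [S.s5]⟩, a8⟩

theorem ancR : ∃ k ω y s, j ≤ k ∧ k < a + n ∧ ph ψ θ k ≤ ph ψ θ j + η ∧ An L ρ r θ ω y s ∧
    |ω - ph ψ θ j| ≤ η ∧ ‖P k - pt ρ ω y s‖ ≤ 2 * η := by
  have m := ph_mem (ψ := ψ) T.par j
  have j2 := T.mk'.2.1
  obtain ⟨b, hb⟩ : ∃ b, a + n = b + 1 := ⟨a + n - 1, by omega⟩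
  rcases le_total (Real.pi / 2 + 2 * Real.pi - θ) (ph ψ θ j + η) with g | g
  · exact ⟨b, _, _, _, by omega, by omega, by rw [T.ph_last S hb]; exact g, (T.tipR S hb).1,
      abs_le.2 ⟨by linarith [S.s5], by linarith⟩, (T.tipR S hb).2⟩
  · obtain ⟨k, ω, a1, a2, a3, a4, a5, a6, a7, a8⟩ := T.window S (ω0 := ph ψ θ j) m.1 g
    exact ⟨k, ω, _, _, Nat.lt_succ_iff.1 (T.mono.reflect_lt (by linarith)), by omega, by linarith,
      a7, abs_le.2 ⟨by linarith [S.s5], by linarith⟩, a8⟩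

theorem marked {lam : ℝ} (l1 : lam ≤ 1) (l2 : 4 * η ≤ lam)
    (hp : ∀ i k, a < i → i < k → k < a + n → Pc A i k →
      ‖tg (ph ψ θ i) - tg (ph ψ θ k)‖ ≤ 1 - lam) :
    Q L ρ r θ lam ((2 * (‖z‖ + L + ρ + 2 * r + 1) + 3) * η) z := by
  obtain ⟨k1, ω1, y1, s1, a1, a2, a3, a4, a5, a6⟩ := T.ancL S
  obtain ⟨k2, ω2, y2, s2, b1, b2, b3, b4, b5, b6⟩ := T.ancR S
  obtain ⟨j1, j2, mk'⟩ := T.mk'
  have η0 := S.s5
  have lw := T.base
  have e0 : W ψ θ a n a = W ψ θ a n (a + n) := by simp [W, fld]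
  rw [← val_root _ j1.le j2.le e0 z] at lw
  have feas := feas_Fs (α := Real.pi / 2 + θ) (β := Real.pi / 2 + 2 * Real.pi - θ) l1 hp
  have wm := fld_mem (ψ := ψ) (α := Real.pi / 2 + θ) (β := Real.pi / 2 + 2 * Real.pi - θ) (a := a)
    (b := a + n) (lam := lam) (by linarith)
  obtain ⟨v1, -⟩ := T.val_small (s := k1 + 1) (t := j) (by omega) a2 j2
  obtain ⟨v2, n0⟩ := T.val_small j1 b1 b2
  have n1 : ‖P k1 - z‖ ≤ ‖z‖ + L + ρ + 2 * r + 1 := by
    have := T.samp.norm_le (add_pos T.par.ρ0 T.par.hr).le k1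
    have d := dist_triangle (P k1) (smp (ρ + r) ψ x k1) 0
    rw [dist_zero_right, dist_zero_right] at d
    linarith [norm_sub_le (P k1) z, T.near k1, T.e1]
  have n2 := (T.val_small (s := k2) (t := k2) (by omega) le_rfl b2).2
  set M := ‖z‖ + L + ρ + 2 * r + 1
  have M0 : 0 ≤ M := (norm_nonneg _).trans n0
  have ση : σ ≤ η := by nlinarith [S.s3, T.e0.trans_le T.es, T.par.ρ0, T.par.hr]
  refine ⟨ph ψ θ j, ω1, y1, s1, ω2, y2, s2, a4, b4, by nlinarith, by nlinarith, fun u u1 u2 => ?_⟩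
  have d1 : ‖(u - 1) * tg (ph ψ θ j)‖ ≤ lam / 4 := by rwa [norm_mul, norm_tg, mul_one]
  have d2 : ‖(u - 1) * tg (ph ψ θ j)‖ ≤ 1 := by linarith
  have vm : ∀ i, a < i → i < a + n → |ph ψ θ j - ph ψ θ i| ≤ η → u * tg (ph ψ θ j) ∈
      Fs ψ (Real.pi / 2 + θ) (Real.pi / 2 + 2 * Real.pi - θ) a (a + n) lam i := fun i g1 g2 g => by
    refine ⟨by rwa [norm_mul, norm_tg, mul_one], ?_, fun e => by omega⟩
    have := norm_add_le ((u - 1) * tg (ph ψ θ j)) (tg (ph ψ θ j) - tg (ph ψ θ i))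
    rw [show (u - 1) * tg (ph ψ θ j) + (tg (ph ψ θ j) - tg (ph ψ θ i)) =
      u * tg (ph ψ θ j) - tg (ph ψ θ i) by ring] at this
    rw [show fld ψ _ _ a (a + n) i = _ from W_mid g1 g2]
    linarith [norm_tg_sub (ph ψ θ j) (ph ψ θ i)]
  constructor
  · set w : ℕ → ℂ := fun i => if k1 < i ∧ i ≤ j then u * tg (ph ψ θ j) else W ψ θ a n i with hw
    have up := mk' _ feas w (W ψ θ a n) (fun i => by
      simp only [hw]
      split_ifs with g
      · exact vm i (by omega) (by omega) (abs_le.2 ⟨by linarith [T.mono g.2],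
          by linarith [T.mono (show k1 + 1 ≤ i from g.1)]⟩)
      · exact wm i) wm (by simp only [hw]; rw [if_neg (by omega), e0])
    rw [val_cut w a1 a2,
      val_congr (w := W ψ θ a n) 0 fun i _ _ => by simp only [hw]; rw [if_neg (by omega), add_zero],
      val_const (s := k1 + 1) fun i _ _ => by simp only [hw]; rw [if_pos (by omega)]] at up
    rw [val_cut _ a1 a2, W_mid (i := k1 + 1) (by omega) (by omega)] at lw
    simp only [hw] at up
    rw [if_neg (by omega), if_pos (by omega)] at up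
    have e1 := dot_err d2 a6
    have e2 := (dot_le _ _).trans (mul_le_mul ((norm_tg_sub (ph ψ θ j) (ph ψ θ (k1 + 1))).trans
      (show _ ≤ η from abs_le.2 ⟨by linarith [T.mono (show k1 + 1 ≤ j from a2)], by linarith⟩)) n1
      (norm_nonneg _) η0.le)
    have e3 := mul_le_mul_of_nonneg_left (show ph ψ θ j - ph ψ θ (k1 + 1) ≤ η by linarith) M0
    rw [sub_mul, one_mul] at e1 ⊢
    simp only [dot, Complex.sub_re, Complex.sub_im] at up lw e1 e2 ⊢
    linarith
  · set w : ℕ → ℂ := fun i => if j ≤ i ∧ i ≤ k2 then u * tg (ph ψ θ j) else W ψ θ a n i with hw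
    have up := mk' _ feas (W ψ θ a n) w wm (fun i => by
      simp only [hw]
      split_ifs with g
      · exact vm i (by omega) (by omega) (abs_le.2 ⟨by linarith [T.mono g.2],
          by linarith [T.mono g.1]⟩)
      · exact wm i) (by simp only [hw]; rw [if_neg (by omega), e0])
    rw [val_cut w b1 b2,
      val_const (w := w) (s := j) fun i _ _ => by simp only [hw]; rw [if_pos (by omega)],
      val_congr (w := W ψ θ a n) (s := k2 + 1) 0 fun i _ _ => by
        simp only [hw]; rw [if_neg (by omega), add_zero]] at up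
    rw [val_cut _ b1 b2, W_mid (i := k2) (by omega) b2] at lw
    simp only [hw] at up
    rw [if_pos (by omega), if_neg (by omega)] at up
    have e1 := dot_err (p := pt ρ ω2 y2 s2) d2 ((norm_sub_rev _ _).trans_le b6)
    have e2 := (dot_le _ _).trans (mul_le_mul ((norm_tg_sub (ph ψ θ k2) (ph ψ θ j)).trans
      (show _ ≤ η from abs_le.2 ⟨by linarith [T.mono b1], by linarith⟩)) n2 (norm_nonneg _) η0.le)
    have e3 := mul_le_mul_of_nonneg_left (show ph ψ θ k2 - ph ψ θ j ≤ η by linarith) M0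
    rw [sub_mul, one_mul] at e1 ⊢
    simp only [dot, Complex.sub_re, Complex.sub_im] at up lw e1 e2 ⊢
    linarith

end Tight

end Pool.Agent.Lib.MP_4b56aa_gt.Fan
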