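import Pool.Agent.Lib.MP_4b56aa_gt.Fan.FVal

namespace Pool.Agent.Lib.MP_4b56aa_gt.Fan

open Set Filter Topology Pool.Agent.Lib.MP_4b56aa_gt.Red Pool.Agent.Lib.MP_4b56aa_gt.Out

variable {L ρ r ε θ c : ℝ} {n a j : ℕ} {ψ x : ℕ → ℝ} {P : ℕ → ℂ} {A : Set ℕ} {z : ℂ}

theorem Dat.ex_sum (D : Dat L ρ r ε n ψ x P A a j c z) (w : ℕ → ℂ) (s : Finset ℕ) :
    0 ≤ ∑ i ∈ s, ex P (smp (ρ + r) ψ x) w (r + ε) i :=
  Finset.sum_nonneg fun i _ => ex_nonneg (D.near i)

theorem Dat.lowA (D : Dat L ρ r ε n ψ x P A a j c z) (h : Par L ρ r θ) (hε : ε ≤ θ) :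
    Lst L ρ r θ + 2 * L * (Real.cos (θ - min |ψ a - Real.pi / 2| θ) - Real.cos θ) -
      (4 * L + 9 * (ρ + r) + 11) * ε ≤ c := by
  have pi := Real.pi_pos
  have h0 := h.h0
  have h1 := h.h1
  have lo := D.lo
  have hi := D.hi
  have p : |L| ≤ L := (abs_of_pos h.hL).le
  have m : |(-L)| ≤ L := by rwa [abs_neg]
  have sup := D.samp.sup a
  have key := fun y1 y2 y3 ω1 ω2 g1 g2 g3 w1 w2 w3 =>
    (le_add_of_nonneg_left (D.ex_sum _ _)).trans ((D.val_ge (α := ψ a + θ)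
      (β := ψ a + 2 * Real.pi - θ) (y1 := y1) (y2 := y2) (y3 := y3) (ω1 := ω1) (ω2 := ω2)
      h.ρ0.le h.hr.le (by linarith) (by linarith) (by linarith) g1 g2 g3 w1 w2 w3).trans D.val_le)
  have e1 : Real.sin (ψ a + 2 * Real.pi - θ - ψ a) = -Real.sin θ := by
    rw [show ψ a + 2 * Real.pi - θ - ψ a = 2 * Real.pi - θ by ring, Real.sin_two_pi_sub]
  have e2 : Real.sin (ψ a + 2 * Real.pi - θ) = Real.sin (ψ a - θ) := by
    rw [show ψ a + 2 * Real.pi - θ = ψ a - θ + 2 * Real.pi by ring, Real.sin_add_two_pi]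
  have e3 : Real.sin (Real.pi / 2 + Real.pi) = -1 := by
    rw [Real.sin_add_pi, Real.sin_pi_div_two]
  have e4 : Real.sin (Real.pi / 2 + 2 * Real.pi) = 1 := by
    rw [Real.sin_add_two_pi, Real.sin_pi_div_two]
  simp only [add_sub_cancel_left, e1, e2] at key
  unfold Lst Uh mu
  rcases le_total θ |ψ a - Real.pi / 2| with g | g
  · rw [min_eq_right g, sub_self, Real.cos_zero]
    rcases le_abs'.1 g with g | g
    · have cp := Real.cos_pos_of_mem_Ioo (x := ψ a) ⟨by linarith, by linarith⟩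
      rw [abs_of_pos cp] at sup
      have := key L (-L) L (Real.pi / 2) (Real.pi / 2 + Real.pi) p m p (by linarith) (by linarith)
        (by linarith)
      rw [mul_right_cancel₀ cp.ne' sup, e3, Real.sin_pi_div_two] at this
      linarith
    · have cp := Real.cos_neg_of_pi_div_two_lt_of_lt (x := ψ a) (by linarith) (by linarith)
      rw [abs_of_neg cp, mul_neg, ← neg_mul] at sup
      have := key (-L) L (-L) (Real.pi / 2 + Real.pi) (Real.pi / 2 + 2 * Real.pi) m p m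
        (by linarith) (by linarith) (by linarith)
      rw [mul_right_cancel₀ cp.ne sup, e3, e4] at this
      linarith
  · have := key (-L) L L (Real.pi / 2 + Real.pi) (Real.pi / 2 + Real.pi) m p p (by linarith)
      le_rfl (by linarith)
    rw [min_eq_left g, Real.cos_sub, Real.cos_abs, Real.cos_sub_pi_div_two,
      ← Real.abs_sin_eq_sin_abs_of_abs_le_pi (by linarith), Real.sin_sub_pi_div_two, abs_neg]
    rw [e3, Real.sin_add, Real.sin_sub] at this
    have k : x a * Real.cos (ψ a) * Real.sin θ = L * |Real.cos (ψ a)| * Real.sin θ := by rw [sup]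
    linarith

/-- The dependence of the dual value on a clamping angle. -/
noncomputable def ff (L ρ r t : ℝ) : ℝ := (ρ + r) * Real.sin t - ρ * t + L * Real.cos t

theorem Dat.lowB (D : Dat L ρ r ε n ψ x P A a j c z) (h : Par L ρ r θ) {t1 t2 g : ℝ}
    (a1 : θ / 2 ≤ t1) (a2 : t1 ≤ θ) (b1 : θ / 2 ≤ t2) (b2 : t2 ≤ θ) (hg : |ψ a - Real.pi / 2| ≤ g)
    (hε : g + ε ≤ θ / 2) :
    ∑ i ∈ Finset.Ico a (a + n), ex P (smp (ρ + r) ψ x)
      (fld ψ (Real.pi / 2 + t1) (Real.pi / 2 + 2 * Real.pi - t2) a (a + n)) (r + ε) i +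
      (Lst L ρ r θ + x a * (Real.cos t1 - Real.cos t2) + (ff L ρ r t1 - ff L ρ r θ) +
      (ff L ρ r t2 - ff L ρ r θ) - 2 * (ρ + r) * g - (4 * L + 9 * (ρ + r) + 11) * ε) ≤
    val P (fld ψ (Real.pi / 2 + t1) (Real.pi / 2 + 2 * Real.pi - t2) a (a + n)) a (a + n) 0 := by
  have pi := Real.pi_pos
  have h1 := h.h1
  obtain ⟨g1, g2⟩ := abs_le.1 hg
  have p : |L| ≤ L := (abs_of_pos h.hL).le
  refine le_trans ?_ (D.val_ge (y1 := -L) (y2 := L) (y3 := L) (ω1 := Real.pi / 2 + Real.pi)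
    (ω2 := Real.pi / 2 + Real.pi) h.ρ0.le h.hr.le (by linarith) (by linarith) (by linarith)
    (by rwa [abs_neg]) p p (by linarith) le_rfl (by linarith))
  have e1 : Real.sin (Real.pi / 2 + t1) = Real.cos t1 := by
    rw [add_comm, Real.sin_add_pi_div_two]
  have e2 : Real.sin (Real.pi / 2 + 2 * Real.pi - t2) = Real.cos t2 := by
    rw [show Real.pi / 2 + 2 * Real.pi - t2 = Real.pi / 2 - t2 + 2 * Real.pi by ring,
      Real.sin_add_two_pi, Real.sin_pi_div_two_sub]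
  have e3 : Real.sin (Real.pi / 2 + Real.pi) = -1 := by
    rw [Real.sin_add_pi, Real.sin_pi_div_two]
  have s1 := (Real.abs_sin_sub_sin_le (Real.pi / 2 + t1 - ψ a) t1).trans
    (show _ ≤ g from abs_le.2 ⟨by linarith, by linarith⟩)
  have s2 := (Real.abs_sin_sub_sin_le (Real.pi / 2 + 2 * Real.pi - t2 - ψ a)
    (2 * Real.pi - t2)).trans (show _ ≤ g from abs_le.2 ⟨by linarith, by linarith⟩)
  rw [Real.sin_two_pi_sub] at s2
  have R0 := (add_pos h.ρ0 h.hr).le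
  have s3 := mul_le_mul_of_nonneg_left (abs_le.1 s1).1 R0
  have s4 := mul_le_mul_of_nonneg_left (abs_le.1 s2).2 R0
  rw [e1, e2, e3]
  unfold Lst Uh mu ff
  linarith

theorem exists_tilt (h : Par L ρ r θ) {σ : ℝ} (hσ : 0 < σ) : ∃ δ, 0 < δ ∧ δ < θ / 2 ∧
    0 < σ * (Real.cos (θ - δ) - Real.cos θ) + (ff L ρ r (θ - δ) - ff L ρ r θ) := by
  have d0 : HasDerivAt (fun t : ℝ => θ - t) (-1) 0 := by
    simpa using (hasDerivAt_id (0 : ℝ)).const_sub θ
  have d : HasDerivAt (fun t : ℝ => σ * Real.cos (θ - t) + ff L ρ r (θ - t)) (σ * Real.sin θ) 0 := by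
    refine HasDerivAt.congr_deriv ((d0.cos.const_mul σ).add
      (((d0.sin.const_mul (ρ + r)).sub (d0.const_mul ρ)).add (d0.cos.const_mul L))) ?_
    simp only [sub_zero]
    linarith [h.rel]
  have e1 := d.tendsto_slope_zero_right.eventually (lt_mem_nhds (mul_pos hσ h.sin0))
  have e2 : ∀ᶠ t in 𝓝[>] (0 : ℝ), t ∈ Ioo 0 (θ / 2) := Ioo_mem_nhdsGT (half_pos h.h0)
  obtain ⟨δ, a, b⟩ := (e1.and e2).exists
  simp only [zero_add, sub_zero, smul_eq_mul] at a
  have := (mul_pos_iff_of_pos_left (inv_pos.2 b.1)).1 a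
  exact ⟨δ, b.1, b.2, by linarith⟩

/-- The clamped tangents of the horseshoe. -/
noncomputable def W (ψ : ℕ → ℝ) (θ : ℝ) (a n : ℕ) : ℕ → ℂ :=
  fld ψ (Real.pi / 2 + θ) (Real.pi / 2 + 2 * Real.pi - θ) a (a + n)

/-- The data are tight up to `σ`. -/
structure Tight (L ρ r θ σ ε : ℝ) (n : ℕ) (ψ x : ℕ → ℝ) (P : ℕ → ℂ) (A : Set ℕ) (a j : ℕ) (c : ℝ)
    (z : ℂ) : Prop extends Dat L ρ r ε n ψ x P A a j c z where
  par : Par L ρ r θ
  es : ε ≤ σ
  ang : |ψ a - Real.pi / 2| ≤ σ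
  foot : |x a| ≤ σ
  low : c - σ + ∑ i ∈ Finset.Ico a (a + n), ex P (smp (ρ + r) ψ x) (W ψ θ a n) (r + ε) i ≤
    val P (W ψ θ a n) a (a + n) 0

theorem exists_tight (h : Par L ρ r θ) {σ : ℝ} (hσ : 0 < σ) : ∃ ε0, 0 < ε0 ∧
    ∀ {ε c : ℝ} {n a j : ℕ} {ψ x : ℕ → ℝ} {P : ℕ → ℂ} {A : Set ℕ} {z : ℂ},
      Dat L ρ r ε n ψ x P A a j c z → ε ≤ ε0 → c ≤ Lst L ρ r θ + ε →
      Tight L ρ r θ σ ε n ψ x P A a j c z := by
  obtain ⟨δ, d0, d1, hG⟩ := exists_tilt h hσ
  set G := σ * (Real.cos (θ - δ) - Real.cos θ) + (ff L ρ r (θ - δ) - ff L ρ r θ) with eG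
  have h0 := h.h0
  have h1 := h.h1
  have hL := h.hL
  have pi := Real.pi_pos
  have R0 := add_pos h.ρ0 h.hr
  obtain ⟨g, g0, g1, g2, g3, g4⟩ : ∃ g, 0 < g ∧ g ≤ σ ∧ g ≤ θ / 4 ∧ 2 * (ρ + r) * g ≤ G / 2 ∧
      2 * (ρ + r) * g ≤ σ / 2 := by
    refine ⟨min (min σ (θ / 4)) (min G σ / (4 * (ρ + r))), by positivity,
      (min_le_left _ _).trans (min_le_left _ _), (min_le_left _ _).trans (min_le_right _ _), ?_⟩
    have := (le_div_iff₀ (show 0 < 4 * (ρ + r) by positivity)).1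
      (min_le_right (min σ (θ / 4)) (min G σ / (4 * (ρ + r))))
    exact ⟨by linarith [min_le_left G σ], by linarith [min_le_right G σ]⟩
  have s0 : 0 < 2 * L * (Real.cos (θ - g) - Real.cos θ) := mul_pos (by linarith)
    (sub_pos.2 (Real.cos_lt_cos_of_nonneg_of_le_pi (by linarith) (by linarith) (by linarith)))
  set s := 2 * L * (Real.cos (θ - g) - Real.cos θ) with es
  have cδ : 0 < Real.cos (θ - δ) - Real.cos θ :=
    sub_pos.2 (Real.cos_lt_cos_of_nonneg_of_le_pi (by linarith) (by linarith) (by linarith))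
  refine ⟨min (min σ (θ / 4)) (min s (min G σ) / (4 * (4 * L + 9 * (ρ + r) + 12))), by positivity,
    fun {ε c n a j ψ x P A z} D he hc => ?_⟩
  have k1 := he.trans ((min_le_left _ _).trans (min_le_left _ _))
  have k2 := he.trans ((min_le_left _ _).trans (min_le_right _ _))
  have k3 := (le_div_iff₀ (by positivity)).1 (he.trans (min_le_right _ _))
  have k4 := k3.trans (min_le_left _ _)
  have k5 := k3.trans ((min_le_right _ _).trans (min_le_left _ _))
  have k6 := k3.trans ((min_le_right _ _).trans (min_le_right _ _))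
  have ga : |ψ a - Real.pi / 2| ≤ g := by
    by_contra b
    have b1 : g ≤ min |ψ a - Real.pi / 2| θ := le_min (not_le.1 b).le (by linarith)
    have b2 := Real.cos_le_cos_of_nonneg_of_le_pi (x := θ - min |ψ a - Real.pi / 2| θ) (y := θ - g)
      (sub_nonneg.2 (min_le_right _ _)) (by linarith) (by linarith)
    have := D.lowA h (by linarith)
    nlinarith
  refine ⟨D, h, k1, ga.trans g1, abs_le.2 ⟨not_lt.1 fun b => ?_, not_lt.1 fun b => ?_⟩, ?_⟩
  · have := (le_add_of_nonneg_left (D.ex_sum _ _)).trans ((D.lowB h (t1 := θ) (t2 := θ - δ)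
      (by linarith) le_rfl (by linarith) (by linarith) ga (by linarith)).trans D.val_le)
    nlinarith
  · have := (le_add_of_nonneg_left (D.ex_sum _ _)).trans ((D.lowB h (t1 := θ - δ) (t2 := θ)
      (by linarith) (by linarith) (by linarith) le_rfl ga (by linarith)).trans D.val_le)
    nlinarith
  · have := D.lowB h (t1 := θ) (t2 := θ) (by linarith) le_rfl (by linarith) le_rfl ga (by linarith)
    unfold W
    linarith

end Pool.Agent.Lib.MP_4b56aa_gt.Fan
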