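import Pool.Agent.Lib.MP_4b56aa_gt.Fan.FDefs
import Pool.Agent.Lib.MP_4b56aa_gt.Red.RMain
import Pool.Agent.Lib.MP_4b56aa_gt.Comp

namespace Pool.Agent.Lib.MP_4b56aa_gt.Fan

open Set Metric MeasureTheory Pool.Agent.Lib.MP_4b56aa_gt.Red

theorem exists_samp {L ε : ℝ} (hL : 0 < L) (hε : 0 < ε) : ∃ n ψ x, 4 ≤ n ∧ Samp L ε n ψ x := by
  obtain ⟨N, hN⟩ := exists_nat_gt ((1 + 2 * L) / ε)
  have N0 : (0 : ℝ) < N := lt_trans (by positivity) hN
  have N1 : 0 < N := by exact_mod_cast N0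
  rw [div_lt_iff₀ hε] at hN
  have pi := Real.pi_pos
  set Ψ : ℕ → ℕ → ℝ := fun k t =>
    k * Real.pi - Real.pi / 2 + (min t (12 * N) : ℕ) * (Real.pi / (12 * N)) with hΨ
  set Ξ : ℕ → ℕ → ℝ := fun k t => (-1) ^ k * L * (1 - 2 * ((t - 12 * N : ℕ) : ℝ) / N) with hΞ
  have h0 : 0 < 13 * N := by omega
  have dm : ∀ k t, t < 13 * N → (13 * N * k + t) / (13 * N) = k ∧ (13 * N * k + t) % (13 * N) = t :=
    fun k t ht => ⟨by rw [Nat.mul_add_div h0, Nat.div_eq_of_lt ht, add_zero],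
      by rw [Nat.mul_add_mod, Nat.mod_eq_of_lt ht]⟩
  have full : ((12 * N : ℕ) : ℝ) * (Real.pi / (12 * N)) = Real.pi := by push_cast; field_simp
  have nxt : ∀ i, Ψ ((i + 1) / (13 * N)) ((i + 1) % (13 * N)) = Ψ (i / (13 * N)) (i % (13 * N) + 1) ∧
      Ξ ((i + 1) / (13 * N)) ((i + 1) % (13 * N)) = Ξ (i / (13 * N)) (i % (13 * N) + 1) := by
    intro i
    have e := Nat.div_add_mod i (13 * N)
    have l := Nat.mod_lt i h0
    generalize i / (13 * N) = k at e
    generalize i % (13 * N) = t at e l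
    subst e
    rcases Nat.lt_or_ge (t + 1) (13 * N) with c | c
    · rw [add_assoc, (dm k _ c).1, (dm k _ c).2]
      exact ⟨rfl, rfl⟩
    · have e : t + 1 = 13 * N := by omega
      rw [show 13 * N * k + t + 1 = 13 * N * (k + 1) + 0 by rw [add_assoc, e]; ring,
        (dm _ 0 h0).1, (dm _ 0 h0).2, e]
      simp only [hΨ, hΞ]
      rw [min_eq_left (Nat.zero_le _), min_eq_right (by omega), full, Nat.zero_sub,
        show 13 * N - 12 * N = N by omega]
      constructor
      · push_cast; ring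
      · field_simp; push_cast; ring
  have cs : ∀ (k : ℕ) (s : ℝ), Real.cos (k * Real.pi - Real.pi / 2 + s) = (-1) ^ k * Real.sin s :=
    fun k s => by
      rw [show k * Real.pi - Real.pi / 2 + s = s - Real.pi / 2 + k * Real.pi by ring,
        Real.cos_add_nat_mul_pi, Real.cos_sub_pi_div_two]
  have sq : ∀ k : ℕ, ((-1 : ℝ) ^ k) * (-1) ^ k = 1 := fun k => by rw [← mul_pow]; simp
  have ab : ∀ k : ℕ, |(-1 : ℝ) ^ k| = 1 := fun k => by simp
  have δ0 : 0 < Real.pi / (12 * N) := by positivity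
  have supp : ∀ (k : ℕ) (s : ℝ), 0 ≤ s → s ≤ Real.pi →
      (-1) ^ k * L * Real.cos (k * Real.pi - Real.pi / 2 + s) =
        L * |Real.cos (k * Real.pi - Real.pi / 2 + s)| := fun k s s0 s1 => by
    rw [cs, abs_mul, ab, abs_of_nonneg (Real.sin_nonneg_of_nonneg_of_le_pi s0 s1)]
    linear_combination L * Real.sin s * sq k
  have turn : ∀ k t, t < 12 * N → Ψ k t = k * Real.pi - Real.pi / 2 + t * (Real.pi / (12 * N)) ∧
      Ψ k (t + 1) = k * Real.pi - Real.pi / 2 + (t + 1) * (Real.pi / (12 * N)) ∧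
      Ξ k t = (-1) ^ k * L ∧ Ξ k (t + 1) = (-1) ^ k * L := fun k t c => by
    simp only [hΨ, hΞ]
    rw [min_eq_left c.le, min_eq_left (by omega), Nat.sub_eq_zero_of_le c.le,
      Nat.sub_eq_zero_of_le (by omega)]
    simp
  have flat : ∀ k t, 12 * N ≤ t → Ψ k t = k * Real.pi - Real.pi / 2 + Real.pi ∧
      Ψ k (t + 1) = k * Real.pi - Real.pi / 2 + Real.pi ∧
      Ξ k (t + 1) - Ξ k t = -((-1) ^ k * (2 * L / N)) := fun k t c => by
    simp only [hΨ, hΞ]
    rw [min_eq_right c, min_eq_right (by omega), full, show t + 1 - 12 * N = t - 12 * N + 1 by omega]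
    refine ⟨rfl, rfl, ?_⟩
    push_cast
    ring
  have per : ∀ i, (i + 26 * N) / (13 * N) = i / (13 * N) + 2 ∧
      (i + 26 * N) % (13 * N) = i % (13 * N) := fun i => by
    rw [show 26 * N = 13 * N * 2 by ring, Nat.add_mul_div_left _ _ h0, Nat.add_mul_mod_self_left]
    exact ⟨rfl, rfl⟩
  have m1 : Real.pi / (12 * N) ≤ ε := by
    rw [div_le_iff₀ (by positivity)]
    nlinarith [Real.pi_le_four]
  have m2 : 2 * L / N ≤ ε := by rw [div_le_iff₀ N0]; nlinarith
  have tv : 4 * L ≤ ∑ i ∈ Finset.range (26 * N),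
      |Ξ ((i + 1) / (13 * N)) ((i + 1) % (13 * N)) - Ξ (i / (13 * N)) (i % (13 * N))| := by
    set f : ℕ → ℝ := fun i => Ξ (i / (13 * N)) (i % (13 * N)) with hf
    have v : ∀ k, f (13 * N * k) = (-1) ^ k * L := fun k => by
      have := dm k 0 h0
      rw [add_zero] at this
      simp only [hf, this.1, this.2]
      exact (turn k 0 (by omega)).2.2.1
    have a := Finset.abs_sum_le_sum_abs (fun i => f (i + 1) - f i) (Finset.range (13 * N))
    have b := Finset.abs_sum_le_sum_abs (fun i => f (13 * N + (i + 1)) - f (13 * N + i))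
      (Finset.range (13 * N))
    rw [Finset.sum_range_sub] at a
    rw [Finset.sum_range_sub (fun i => f (13 * N + i))] at b
    have v0 := v 0
    have v1 := v 1
    have v2 := v 2
    rw [mul_zero] at v0
    rw [mul_one] at v1
    rw [mul_two] at v2
    rw [v0, v1] at a
    rw [add_zero, v1, v2] at b
    rw [show 26 * N = 13 * N + 13 * N by ring, Finset.sum_range_add]
    have a' := (neg_le_abs _).trans a
    have b' := (le_abs_self _).trans b
    simp only [hf, ← add_assoc] at a' b'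
    linarith
  refine ⟨26 * N, fun i => Ψ (i / (13 * N)) (i % (13 * N)), fun i => Ξ (i / (13 * N)) (i % (13 * N)),
    by omega, fun i => ?_, fun i => ?_, fun i => ?_, fun i => ?_, fun i => ?_, fun i => ?_,
    fun i => ?_, tv, fun i => ?_⟩
  · simp only [(per i).1, (per i).2, hΨ]; push_cast; ring
  · simp only [(per i).1, (per i).2, hΞ]; ring
  all_goals
    have l := Nat.mod_lt i h0
    try simp only [(nxt i).1, (nxt i).2]
    try simp only
    generalize i / (13 * N) = k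
    generalize i % (13 * N) = t at l
    rcases Nat.lt_or_ge t (12 * N) with c | c
  · rw [(turn k t c).1, (turn k t c).2.1]; linarith
  · rw [(flat k t c).1, (flat k t c).2.1]
  · rw [(turn k t c).1, (turn k t c).2.1]; linarith
  · rw [(flat k t c).1, (flat k t c).2.1]; linarith
  · rw [(turn k t c).2.2.1, (turn k t c).2.2.2]; simpa using hε.le
  · rw [(flat k t c).2.2, abs_neg, abs_mul, ab, one_mul, abs_of_pos (by positivity)]; exact m2
  · rw [(turn k t c).2.2.1, abs_mul, ab, one_mul, abs_of_pos hL]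
  · simp only [hΞ]
    have : ((t - 12 * N : ℕ) : ℝ) ≤ N := by exact_mod_cast (by omega : t - 12 * N ≤ N)
    have a1 := (div_le_iff₀ N0).2 (show 2 * ((t - 12 * N : ℕ) : ℝ) ≤ 2 * N by linarith)
    have a2 : 0 ≤ 2 * ((t - 12 * N : ℕ) : ℝ) / N := by positivity
    rw [abs_mul, abs_mul, ab, one_mul, abs_of_pos hL]
    exact mul_le_of_le_one_right hL.le (abs_le.2 ⟨by linarith, by linarith⟩)
  · rw [(turn k t c).1, (turn k t c).2.2.1]
    exact supp k _ (by positivity)
      ((mul_le_mul_of_nonneg_right (by exact_mod_cast c.le) δ0.le).trans_eq full)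
  · rw [(flat k t c).1, cs]; simp
  · obtain ⟨e1, e2, e3, e4⟩ := turn k t c
    rw [e1, e2, e3, e4]
    have up : ((t : ℝ) + 1) * (Real.pi / (12 * N)) ≤ Real.pi :=
      (mul_le_mul_of_nonneg_right (by exact_mod_cast c) δ0.le).trans_eq full
    refine Or.inl ⟨rfl, by linarith, by rw [abs_mul, ab, one_mul, abs_of_pos hL], fun ω a b => ?_,
      12 * k - 6 + (t / N : ℕ), ?_, ?_⟩
    · have := supp k (ω - (k * Real.pi - Real.pi / 2)) (by nlinarith) (by linarith)
      rwa [add_sub_cancel] at this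
    · have : ((t / N : ℕ) : ℝ) * N ≤ t := by exact_mod_cast Nat.div_mul_le_self t N
      have e : Real.pi / 12 = N * (Real.pi / (12 * N)) := by field_simp
      have := mul_le_mul_of_nonneg_right this δ0.le
      rw [Int.cast_add, Int.cast_natCast]
      push_cast
      rw [mul_assoc, ← e] at this
      linarith
    · have : (t : ℝ) + 1 ≤ (((t / N : ℕ) : ℝ) + 1) * N := by
        have := Nat.lt_div_mul_add (a := t) N1
        exact_mod_cast (by rw [add_mul, one_mul]; omega : t + 1 ≤ (t / N + 1) * N)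
      have e : Real.pi / 12 = N * (Real.pi / (12 * N)) := by field_simp
      have := mul_le_mul_of_nonneg_right this δ0.le
      rw [Int.cast_add, Int.cast_natCast]
      push_cast
      rw [mul_assoc, ← e] at this
      linarith
  · obtain ⟨e1, e2, e3⟩ := flat k t c
    refine Or.inr ⟨e2.trans e1.symm, by rw [e1, cs]; simp, ?_⟩
    rw [e1, e3, show k * Real.pi - Real.pi / 2 + Real.pi = Real.pi / 2 + k * Real.pi by ring,
      Real.sin_add_nat_mul_pi, Real.sin_pi_div_two]
    have : 0 < 2 * L / N := by positivity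
    nlinarith [sq k]

variable {L ε R : ℝ} {n : ℕ} {ψ x : ℕ → ℝ}

theorem Samp.monotone (h : Samp L ε n ψ x) : Monotone ψ := monotone_nat_of_le_succ h.mono

theorem Samp.neg (h : Samp L ε n ψ x) : Samp L ε n (fun i => ψ i + Real.pi) (fun i => -x i) := by
  refine ⟨fun i => by rw [h.perψ]; ring, fun i => by rw [h.perx], fun i => by linarith [h.mono i],
    fun i => by linarith [h.meshψ i], fun i => by rw [neg_sub_neg, abs_sub_comm]; exact h.meshx i,
    fun i => by rw [abs_neg]; exact h.bnd i,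
    fun i => by rw [Real.cos_add_pi, abs_neg, neg_mul_neg]; exact h.sup i,
    h.tv.trans_eq (Finset.sum_congr rfl fun i _ => by rw [neg_sub_neg, abs_sub_comm]), fun i => ?_⟩
  rcases h.step i with ⟨a, b, c, d, k, e, f⟩ | ⟨a, b, c⟩
  · refine Or.inl ⟨by rw [a], by linarith, by rwa [abs_neg], fun ω p q => ?_, k + 12, ?_, ?_⟩
    · have := d (ω - Real.pi) (by linarith) (by linarith)
      rw [Real.cos_sub_pi, abs_neg] at this
      linarith
    · push_cast; linarith
    · push_cast; linarith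
  · exact Or.inr ⟨by rw [a], by rw [Real.cos_add_pi, b, neg_zero],
      by rw [Real.sin_add_pi]; linarith⟩

theorem smp_re (i : ℕ) : (smp R ψ x i).re = x i + R * Real.cos (ψ i) := by simp [smp, nv_re]

theorem smp_im (i : ℕ) : (smp R ψ x i).im = R * Real.sin (ψ i) := by simp [smp, nv_im]

theorem Samp.sin_le (h : Samp L ε n ψ x) {i : ℕ} {a b y : ℝ} (h1 : ψ i ≤ a) (h2 : a ≤ b)
    (h3 : b ≤ ψ (i + 1)) (hy : |y| ≤ L) :
    y * (Real.sin b - Real.sin a) ≤ x i * (Real.sin b - Real.sin a) := by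
  rcases h.step i with ⟨-, -, -, d, m, m1, m2⟩ | ⟨e, -⟩
  · have := d ((b + a) / 2) (by linarith) (by linarith)
    have k : y * Real.cos ((b + a) / 2) ≤ L * |Real.cos ((b + a) / 2)| :=
      (le_abs_self _).trans (by rw [abs_mul]; gcongr)
    have s := Real.sin_nonneg_of_nonneg_of_le_pi (x := (b - a) / 2) (by linarith)
      (by linarith [Real.pi_pos])
    rw [Real.sin_sub_sin]
    nlinarith [mul_le_mul_of_nonneg_left k s]
  · obtain rfl : a = b := by linarith
    simp

theorem near_of_sup (hL : 0 < L) (hR : 0 ≤ R) {y ω : ℝ} (hy : |y| ≤ L)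
    (h : y * Real.cos ω = L * |Real.cos ω|) : infDist ((y : ℂ) + R * nv ω) (seg L) = R := by
  have : IsNear (seg L) ((y : ℂ) + R * nv ω) y := by
    apply isNear_of_inner ((mem_seg hL).2 ⟨by simp, by simpa using hy⟩)
    intro w hw
    obtain ⟨h1, h2⟩ := (mem_seg hL).1 hw
    have k : w.re * Real.cos ω ≤ L * |Real.cos ω| :=
      (le_abs_self _).trans (by rw [abs_mul]; gcongr)
    rw [inner_complex]
    simp only [add_sub_cancel_left, Complex.re_ofReal_mul, nv_re, Complex.sub_re, Complex.ofReal_re,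
      Complex.sub_im, Complex.ofReal_im, h1]
    nlinarith
  rw [this.infDist_eq, dist_self_add_left, norm_mul, norm_nv, mul_one, Complex.norm_real,
    Real.norm_of_nonneg hR]

theorem Samp.dot_le (h : Samp L ε n ψ x) (hL : 0 < L) {z : ℂ} (hz : infDist z (seg L) ≤ R) (i : ℕ) :
    dot z (nv (ψ i)) ≤ dot (smp R ψ x i) (nv (ψ i)) := by
  obtain ⟨p, hp⟩ := exists_isNear (seg_compact (-(L : ℂ)) L) ⟨_, left_mem_segment ℝ _ _⟩ z
  have d : ‖z - p‖ ≤ R := by rw [← dist_eq_norm, ← hp.infDist_eq]; exact hz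
  obtain ⟨h1, h2⟩ := (mem_seg hL).1 hp.1
  have k : p.re * Real.cos (ψ i) ≤ L * |Real.cos (ψ i)| :=
    (le_abs_self _).trans (by rw [abs_mul]; gcongr)
  have b := Red.dot_le (z - p) (nv (ψ i))
  rw [norm_nv, mul_one] at b
  have e := Real.sin_sq_add_cos_sq (ψ i)
  have := h.sup i
  simp only [dot, Complex.sub_re, Complex.sub_im, nv_re, nv_im, smp_re, smp_im, h1] at b ⊢
  have : R * (Real.sin (ψ i) ^ 2 + Real.cos (ψ i) ^ 2) = R := by rw [e, mul_one]
  nlinarith

theorem Samp.norm_le (h : Samp L ε n ψ x) (hR : 0 ≤ R) (i : ℕ) : ‖smp R ψ x i‖ ≤ L + R := by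
  refine (norm_add_le _ _).trans ?_
  rw [norm_mul, norm_nv, mul_one, Complex.norm_real, Complex.norm_real, Real.norm_of_nonneg hR]
  exact add_le_add (h.bnd i) le_rfl

theorem Samp.reduce (h : Samp L ε n ψ x) (hn : 2 ≤ n) (hL : 0 < L) (hR : 0 < R) (hε : 0 < ε)
    (hε1 : ε < 1) {r : ℝ} (hr : 0 ≤ r) {S : Set ℂ} (hS : IsCompact S) (hc : IsConnected S)
    (hfin : μH[1] S ≠ ⊤) (hin : ∀ z ∈ S, infDist z (seg L) ≤ R)
    (cov : ∀ q, infDist q (seg L) = R → q ∈ cthickening r S) (Z : Finset ℂ) (hZ : ↑Z ⊆ S) :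
    ∃ P : ℕ → ℂ, (∀ i, P (i + n) = P i) ∧ (∀ i, dist (P i) (smp R ψ x i) ≤ r + ε) ∧
      ∃ (a b e : ℕ) (y : ℂ) (c1 c2 c3 : ℝ) (X1 X2 X3 : Set ℂ),
        IT P a b y c1 X1 ∧ IT P b e y c2 X2 ∧ IT P e (a + n) y c3 X3 ∧
        ψ b - ψ a ≤ Real.pi ∧ ψ e - ψ b ≤ Real.pi ∧ ψ (a + n) - ψ e < Real.pi ∧
        c1 + c2 + c3 ≤ (μH[1] S).toReal + ε ∧ ↑Z ⊆ X1 ∪ X2 ∪ X3 := by
  have dI : ∀ i, infDist (smp R ψ x i) (seg L) = R := fun i =>
    near_of_sup hL hR.le (h.bnd i) (h.sup i)
  have pi := Real.pi_gt_three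
  obtain ⟨P, p1, p2, a, b, e, y, c1, c2, c3, X1, X2, X3, -, -, k⟩ := reduction3 hS hc hfin hn hR
    (q := smp R ψ x) (ψ := ψ) (M := L + R) (r := r)
    (fun i => by rw [smp, smp, h.perx, h.perψ, nv_two_pi]) h.perψ h.mono
    (fun i => by
      have e := Real.sin_sq_add_cos_sq (ψ i)
      have := h.sup i
      simp only [dot, nv_re, nv_im, smp_re, smp_im]
      nlinarith [mul_nonneg hL.le (abs_nonneg (Real.cos (ψ i)))])
    (h.norm_le hR.le) (fun i z hz => h.dot_le hL (hin z hz) i) (fun i j => h.dot_le hL (dI j).le i)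
    (fun i => by
      simp only [smp_re, smp_im]
      rcases h.step i with ⟨e, l, -⟩ | ⟨e, c, l⟩
      · have a := h.sin_le le_rfl l.le le_rfl (y := 0) (by simpa using hL.le)
        have s := Real.sin_pos_of_pos_of_lt_pi (sub_pos.2 l) (by linarith [h.meshψ i])
        rw [Real.sin_sub] at s
        rw [e]
        nlinarith [mul_pos (mul_pos hR hR) s, mul_le_mul_of_nonneg_left a hR.le]
      · rw [e, c]
        nlinarith [mul_pos hR (neg_pos.2 l)])
    (fun i => by
      have := cov _ (dI i)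
      rw [hS.cthickening_eq_biUnion_closedBall hr, mem_iUnion₂] at this
      obtain ⟨y, hy, hd⟩ := this
      exact ⟨y, hy, by rwa [dist_comm]⟩)
    Z hZ hε ψ Real.pi h.perψ (fun i => by linarith [h.meshψ i])
  exact ⟨P, p1, fun i => (p2 i).2, a, b, e, y, c1, c2, c3, X1, X2, X3, k⟩

end Pool.Agent.Lib.MP_4b56aa_gt.Fan
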