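import Pool.Agent.Lib.MP_4b56aa_gt.Fan.FDefs
import Pool.Agent.Lib.MP_4b56aa_gt.Red.RTree

namespace Pool.Agent.Lib.MP_4b56aa_gt.Fan

open Set Pool.Agent.Lib.MP_4b56aa_gt.Red

variable {P : ℕ → ℂ} {ψ : ℕ → ℝ} {Rel Rel' : ℕ → ℕ → Prop} {s t m n : ℕ} {x y : ℂ} {c d : ℝ}
  {X Y : Set ℂ}

theorem ITR.it (h : ITR Rel P s t x c X) : IT P s t x c X := by
  induction h with
  | leaf s => exact .leaf s
  | move y _ _ ih => exact ih.move y
  | join _ _ ih1 ih2 => exact ih1.join ih2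
  | spur d Y _ hd hY ih => exact ih.spur d Y hd hY

theorem ITR.lt (h : ITR Rel P s t x c X) : s < t := h.it.lt

theorem ITR.mono (h : ITR Rel P s t x c X)
    (hR : ∀ i k, s ≤ i → i < k → k ≤ t → Rel i k → Rel' i k) : ITR Rel' P s t x c X := by
  induction h with
  | leaf s => exact .leaf s
  | move y h r ih => exact (ih hR).move y (hR _ _ le_rfl h.lt le_rfl r)
  | join h1 h2 ih1 ih2 =>
    exact (ih1 fun i k a b e => hR i k a b (e.trans h2.lt.le)).join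
      (ih2 fun i k a b e => hR i k (h1.lt.le.trans a) b e)
  | spur d Y _ hd hY ih => exact (ih hR).spur d Y hd hY

theorem itr_of_it (h : IT P s t x c X) : ITR (fun _ _ => True) P s t x c X := by
  induction h with
  | leaf s => exact .leaf s
  | move y _ ih => exact ih.move y trivial
  | join _ _ ih1 ih2 => exact ih1.join ih2
  | spur d Y _ hd hY ih => exact ih.spur d Y hd hY

theorem ITR.shift (hP : ∀ i, P (i + n) = P i) (h : ITR Rel P s t x c X) :
    ITR (fun i k => Rel (i - n) (k - n)) P (s + n) (t + n) x c X := by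
  induction h with
  | leaf s =>
    have := ITR.leaf (Rel := fun i k => Rel (i - n) (k - n)) (P := P) (s + n)
    rw [hP, show s + n + 1 = s + 1 + n by omega] at this
    exact this
  | move y _ r ih => exact ih.move y (by simpa using r)
  | join _ _ ih1 ih2 => exact ih1.join ih2
  | spur d Y _ hd hY ih => exact ih.spur d Y hd hY

theorem ITR.neg (h : ITR Rel P s t x c X) :
    ITR Rel (fun i => -P i) s t (-x) c ((fun z => -z) '' X) := by
  induction h with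
  | leaf s => simpa using ITR.leaf (Rel := Rel) (P := fun i => -P i) s
  | move y _ r ih => simpa using ih.move (-y) r
  | join _ _ ih1 ih2 => rw [image_union]; exact ih1.join ih2
  | spur d Y _ hd hY ih =>
    rw [image_union]
    exact ih.spur d _ hd (by rintro _ ⟨z, hz, rfl⟩; simpa using hY z hz)

theorem Sm.sub (hm : Monotone ψ) (h : Sm ψ s t) {i k : ℕ} (h1 : s ≤ i) (h2 : k ≤ t) : Sm ψ i k := by
  unfold Sm at h ⊢
  linarith [hm h1, hm h2]

theorem FL.it (h : FL P ψ s t x c X) : IT P s t x c X := by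
  obtain ⟨A, -, -, -, h⟩ := h
  exact h.it

theorem FR.it (h : FR P ψ s t x c X) : IT P s t x c X := by
  obtain ⟨A, -, -, -, h⟩ := h
  exact h.it

theorem FL.base (hm : Monotone ψ) (h : IT P s t x c X) (hs : Sm ψ s t) : FL P ψ s t x c X :=
  ⟨{t}, fun _ hu => le_of_eq hu, rfl, fun _ _ a _ b _ => hs.sub hm a b,
    (itr_of_it h).mono fun _ _ _ _ b _ => Or.inl fun _ hu => Or.inr (hu ▸ b)⟩

theorem FR.base (hm : Monotone ψ) (h : IT P s t x c X) (hs : Sm ψ s t) : FR P ψ s t x c X :=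
  ⟨{s}, fun _ hu => ge_of_eq hu, rfl, fun _ _ a _ b _ => hs.sub hm a b,
    (itr_of_it h).mono fun _ _ a _ _ _ => Or.inl fun _ hu => Or.inl (hu ▸ a)⟩

theorem FL.move (h : FL P ψ s t x c X) (y : ℂ) : FL P ψ s t y (c + dist x y) X := by
  obtain ⟨A, a1, a2, a3, h⟩ := h
  exact ⟨A, a1, a2, a3, h.move y (Or.inr ⟨rfl, a2⟩)⟩

theorem FR.move (h : FR P ψ s t x c X) (y : ℂ) : FR P ψ s t y (c + dist x y) X := by
  obtain ⟨A, a1, a2, a3, h⟩ := h
  exact ⟨A, a1, a2, a3, h.move y (Or.inr ⟨rfl, a2⟩)⟩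

theorem FL.spur (h : FL P ψ s t x c X) (d : ℝ) (Y : Set ℂ) (hd : 0 ≤ d)
    (hY : ∀ z ∈ Y, dist x z ≤ d) : FL P ψ s t x (c + d) (X ∪ Y) := by
  obtain ⟨A, a1, a2, a3, h⟩ := h
  exact ⟨A, a1, a2, a3, h.spur d Y hd hY⟩

theorem FR.spur (h : FR P ψ s t x c X) (d : ℝ) (Y : Set ℂ) (hd : 0 ≤ d)
    (hY : ∀ z ∈ Y, dist x z ≤ d) : FR P ψ s t x (c + d) (X ∪ Y) := by
  obtain ⟨A, a1, a2, a3, h⟩ := h
  exact ⟨A, a1, a2, a3, h.spur d Y hd hY⟩

theorem FL.join (hm : Monotone ψ) (h : FL P ψ s m x c X) (h2 : IT P m t x d Y) (hs : Sm ψ m t) :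
    FL P ψ s t x (c + d) (X ∪ Y) := by
  obtain ⟨A, a1, a2, a3, h⟩ := h
  have l := h2.lt
  refine ⟨insert t A, ?_, Or.inl rfl, fun i k a g b p => ?_,
    (h.mono ?_).join ((itr_of_it h2).mono ?_)⟩
  · rintro u (rfl | hu)
    exacts [le_rfl, (a1 u hu).trans l.le]
  · rcases p m (Or.inr a2) with e | e
    exacts [hs.sub hm e b, a3 i k a g e fun u hu => p u (Or.inr hu)]
  · rintro i k - - e (p | p)
    · refine Or.inl ?_
      rintro u (rfl | hu)
      exacts [Or.inr (e.trans l.le), p u hu]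
    · exact Or.inr ⟨p.1, Or.inr p.2⟩
  · rintro i k a - e -
    refine Or.inl ?_
    rintro u (rfl | hu)
    exacts [Or.inr e, Or.inl ((a1 u hu).trans a)]

theorem FR.join (hm : Monotone ψ) (h1 : IT P s m x c X) (hs : Sm ψ s m) (h : FR P ψ m t x d Y) :
    FR P ψ s t x (c + d) (X ∪ Y) := by
  obtain ⟨A, a1, a2, a3, h⟩ := h
  have l := h1.lt
  refine ⟨insert s A, ?_, Or.inl rfl, fun i k a g b p => ?_,
    ((itr_of_it h1).mono ?_).join (h.mono ?_)⟩
  · rintro u (rfl | hu)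
    exacts [le_rfl, l.le.trans (a1 u hu)]
  · rcases p m (Or.inr a2) with e | e
    exacts [a3 i k e g b fun u hu => p u (Or.inr hu), hs.sub hm a e]
  · rintro i k a - e -
    refine Or.inl ?_
    rintro u (rfl | hu)
    exacts [Or.inl a, Or.inr (e.trans (a1 u hu))]
  · rintro i k a - - (p | p)
    · refine Or.inl ?_
      rintro u (rfl | hu)
      exacts [Or.inl (l.le.trans a), p u hu]
    · exact Or.inr ⟨p.1, Or.inr p.2⟩

theorem FR.shift (hP : ∀ i, P (i + n) = P i) (hψ : ∀ i, ψ (i + n) = ψ i + 2 * Real.pi)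
    (h : FR P ψ s t x c X) : FR P ψ (s + n) (t + n) x c X := by
  obtain ⟨A, a1, a2, a3, h⟩ := h
  refine ⟨(fun u => u + n) '' A, ?_, ⟨s, a2, rfl⟩, fun i k a g b p => ?_, (h.shift hP).mono ?_⟩
  · rintro _ ⟨u, hu, rfl⟩
    exact Nat.add_le_add_right (a1 u hu) n
  · have := a3 (i - n) (k - n) (by omega) (by omega) (by omega) fun u hu => by
      have := p _ ⟨u, hu, rfl⟩; simp only at this; omega
    have e1 := hψ (i - n)
    have e2 := hψ (k - n)
    rw [Nat.sub_add_cancel (by omega)] at e1 e2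
    unfold Sm at this ⊢
    linarith
  · rintro i k a g b (p | p)
    · refine Or.inl ?_
      rintro _ ⟨u, hu, rfl⟩
      have := p u hu
      simp only
      omega
    · exact Or.inr ⟨by omega, i - n, p.2, by simp only; omega⟩

theorem Sm.shift (hψ : ∀ i, ψ (i + n) = ψ i + 2 * Real.pi) (h : Sm ψ s t) :
    Sm ψ (s + n) (t + n) := by
  unfold Sm at h ⊢
  rw [hψ, hψ]
  linarith

variable {a b e : ℕ} {c1 c2 c3 : ℝ} {X1 X2 X3 : Set ℂ}

theorem fan_a (hm : Monotone ψ) (h1 : FL P ψ a b y c1 X1) (h2 : IT P b e y c2 X2) (hs : Sm ψ b e)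
    (h3 : FR P ψ e (a + n) y c3 X3) : FanAt P ψ n a (c1 + c2 + c3) (X1 ∪ X2 ∪ X3) :=
  ⟨e, y, _, _, _, _, h1.join hm h2 hs, h3, rfl, rfl⟩

theorem fan_b (hm : Monotone ψ) (hP : ∀ i, P (i + n) = P i)
    (hψ : ∀ i, ψ (i + n) = ψ i + 2 * Real.pi) (h1 : FR P ψ a b y c1 X1) (h2 : FL P ψ b e y c2 X2)
    (h3 : IT P e (a + n) y c3 X3) (hs : Sm ψ e (a + n)) :
    FanAt P ψ n b (c1 + c2 + c3) (X1 ∪ X2 ∪ X3) :=
  ⟨a + n, y, _, _, _, _, h2.join hm h3 hs, h1.shift hP hψ, by ring, by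
    ext z; simp only [mem_union]; tauto⟩

theorem fan_e (hm : Monotone ψ) (hP : ∀ i, P (i + n) = P i)
    (hψ : ∀ i, ψ (i + n) = ψ i + 2 * Real.pi) (h1 : IT P a b y c1 X1) (hs : Sm ψ a b)
    (h2 : FR P ψ b e y c2 X2) (h3 : FL P ψ e (a + n) y c3 X3) :
    FanAt P ψ n e (c1 + c2 + c3) (X1 ∪ X2 ∪ X3) :=
  ⟨a + n, y, _, _, _, _, h3, (FR.join hm h1 hs h2).shift hP hψ, by ring, by
    ext z; simp only [mem_union]; tauto⟩

/-- Sets of allowed potentials compatible with the relation. -/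
def Feas (Rel : ℕ → ℕ → Prop) (F : ℕ → Set ℂ) : Prop :=
  ∀ i k, i = k ∨ Rel i k → ∀ u ∈ F i, ∀ v ∈ F k, ‖u - v‖ ≤ 1

theorem dot_le_dist {u x y : ℂ} (h : ‖u‖ ≤ 1) : dot u (x - y) ≤ dist x y := by
  have := (dot_le u (x - y)).trans (mul_le_mul_of_nonneg_right h (norm_nonneg _))
  rwa [one_mul, ← dist_eq_norm] at this

theorem ITR.val_le (h : ITR Rel P s t x c X) {F : ℕ → Set ℂ} (hF : Feas Rel F) {w : ℕ → ℂ}
    (hw : ∀ i, w i ∈ F i) : val P w s t x ≤ c := by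
  induction h with
  | leaf s => simp [val, dot]
  | @move s t x c X y h r ih =>
    rw [val_move w h.lt.le x y]
    linarith [dot_le_dist (x := x) (y := y) (hF s t (Or.inr r) _ (hw s) _ (hw t))]
  | join h1 h2 ih1 ih2 => rw [val_add w h1.lt.le h2.lt.le]; linarith
  | spur d Y _ hd _ ih => linarith

theorem ITR.mark (h : ITR Rel P s t x c X) (p : ℕ) : ∀ z ∈ X, ∃ j, s ≤ j ∧ j ≤ t ∧ j ≠ p ∧
    ∀ F, Feas Rel F → ∀ w w' : ℕ → ℂ, (∀ i, w i ∈ F i) → (∀ i, w' i ∈ F i) →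
      val P w s j x + val P w' j t x + dot (w j - w' j) (z - x) ≤ c := by
  have ends : ∀ {s t : ℕ} {x z : ℂ} {c d : ℝ} {X : Set ℂ}, ITR Rel P s t x c X → dist x z ≤ d →
      ∃ j, s ≤ j ∧ j ≤ t ∧ j ≠ p ∧ ∀ F, Feas Rel F → ∀ w w' : ℕ → ℂ, (∀ i, w i ∈ F i) →
        (∀ i, w' i ∈ F i) →
        val P w s j x + val P w' j t x + dot (w j - w' j) (z - x) ≤ c + d := by
    intro s t x z c d X h hd
    rw [dist_comm] at hd
    by_cases e : s = p
    · refine ⟨t, h.lt.le, le_rfl, by have := h.lt; omega, fun F hF w w' hw hw' => ?_⟩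
      have := dot_le_dist (x := z) (y := x) (hF t t (Or.inl rfl) _ (hw t) _ (hw' t))
      have e0 : val P w' t t x = 0 := by simp [val]
      linarith [h.val_le hF hw]
    · refine ⟨s, le_rfl, h.lt.le, e, fun F hF w w' hw hw' => ?_⟩
      have := dot_le_dist (x := z) (y := x) (hF s s (Or.inl rfl) _ (hw s) _ (hw' s))
      have e0 : val P w s s x = 0 := by simp [val]
      linarith [h.val_le hF hw']
  induction h with
  | leaf s =>
    rintro z rfl
    simpa using ends (ITR.leaf s) (dist_self _).le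
  | @move s t x c X y h r ih =>
    intro z hz
    obtain ⟨j, j1, j2, j3, k⟩ := ih z hz
    refine ⟨j, j1, j2, j3, fun F hF w w' hw hw' => ?_⟩
    have b := dot_le_dist (x := x) (y := y) (hF s t (Or.inr r) _ (hw s) _ (hw' t))
    have := k F hF w w' hw hw'
    rw [val_move w j1 x y, val_move w' j2 x y]
    simp only [dot, Complex.sub_re, Complex.sub_im] at b this ⊢
    linarith
  | @join s m t x c d X Y h1 h2 ih1 ih2 =>
    rintro z (hz | hz)
    · obtain ⟨j, j1, j2, j3, k⟩ := ih1 z hz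
      refine ⟨j, j1, j2.trans h2.lt.le, j3, fun F hF w w' hw hw' => ?_⟩
      rw [val_add w' j2 h2.lt.le]
      linarith [k F hF w w' hw hw', h2.val_le hF hw']
    · obtain ⟨j, j1, j2, j3, k⟩ := ih2 z hz
      refine ⟨j, h1.lt.le.trans j1, j2, j3, fun F hF w w' hw hw' => ?_⟩
      rw [val_add w h1.lt.le j1]
      linarith [k F hF w w' hw hw', h1.val_le hF hw]
  | @spur s t x c X d Y h hd hY ih =>
    rintro z (hz | hz)
    · obtain ⟨j, j1, j2, j3, k⟩ := ih z hz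
      exact ⟨j, j1, j2, j3, fun F hF w w' hw hw' => by linarith [k F hF w w' hw hw']⟩
    · exact ends h (hY z hz)

/-- The relation of a fan with apex `a = b`. -/
def RelF (A : Set ℕ) (a b i k : ℕ) : Prop :=
  a ≤ i ∧ i < k ∧ k ≤ b ∧ (Pc A i k ∨ (i = a ∧ k ∈ A) ∨ (k = b ∧ i ∈ A))

/-- The dual inequalities of a fan in which the point `z` splits the face `j`. -/
def Mk (P : ℕ → ℂ) (A : Set ℕ) (a b j : ℕ) (c : ℝ) (z : ℂ) : Prop :=
  a < j ∧ j < b ∧ ∀ F, Feas (RelF A a b) F → ∀ w w' : ℕ → ℂ, (∀ i, w i ∈ F i) →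
    (∀ i, w' i ∈ F i) → w a = w' b → val P w a j z + val P w' j b z ≤ c

/-- The dual description of a fan. -/
def FanS (P : ℕ → ℂ) (ψ : ℕ → ℝ) (a b : ℕ) (c : ℝ) (X : Set ℂ) : Prop :=
  ∃ A : Set ℕ, (∀ i k, a ≤ i → i ≤ k → k ≤ b → Pc A i k → Sm ψ i k) ∧ ∀ z ∈ X, ∃ j, Mk P A a b j c z

theorem fanS_of {A : Set ℕ} (h1 : ITR (RelF A a b) P a m y c1 X1)
    (h2 : ITR (RelF A a b) P m b y c2 X2) : ∀ z ∈ X1 ∪ X2, ∃ j, Mk P A a b j (c1 + c2) z := by
  have fin : ∀ (w w' : ℕ → ℂ) (j : ℕ) (z : ℂ), a ≤ j → j ≤ b → w a = w' b →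
      val P w a j z + val P w' j b z =
        val P w a j y + val P w' j b y + dot (w j - w' j) (z - y) := fun w w' j z j1 j2 e => by
    rw [val_move w j1 y z, val_move w' j2 y z, e]
    simp only [dot, Complex.sub_re, Complex.sub_im]
    ring
  have l1 := h1.lt
  have l2 := h2.lt
  rintro z (hz | hz)
  · obtain ⟨j, j1, j2, j3, k⟩ := h1.mark a z hz
    refine ⟨j, by omega, by omega, fun F hF w w' hw hw' e => ?_⟩
    rw [fin w w' j z j1 (by omega) e, val_add w' j2 l2.le]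
    linarith [k F hF w w' hw hw', h2.val_le hF hw']
  · obtain ⟨j, j1, j2, j3, k⟩ := h2.mark b z hz
    refine ⟨j, by omega, by omega, fun F hF w w' hw hw' e => ?_⟩
    rw [fin w w' j z (by omega) j2 e, val_add w l1.le j1]
    linarith [k F hF w w' hw hw', h1.val_le hF hw]

theorem FanAt.both (h : FanAt P ψ n a c X) : FanS P ψ a (a + n) c X ∧
    FanS (fun i => -P i) ψ a (a + n) c ((fun z => -z) '' X) := by
  obtain ⟨m, y, c1, c2, X1, X2, ⟨A, a1, a2, a3, h1⟩, ⟨B, b1, b2, b3, h2⟩, rfl, rfl⟩ := h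
  have l1 := h1.lt
  have l2 := h2.lt
  have sm : ∀ i k, a ≤ i → i ≤ k → k ≤ a + n → Pc (A ∪ B) i k → Sm ψ i k := fun i k p1 p2 p3 p => by
    rcases p m (Or.inl a2) with e | e
    exacts [b3 i k e p2 p3 fun u hu => p u (Or.inr hu), a3 i k p1 p2 e fun u hu => p u (Or.inl hu)]
  have g1 : ITR (RelF (A ∪ B) a (a + n)) P a m y c1 X1 := h1.mono fun i k p1 p2 p3 p => by
    refine ⟨p1, p2, by omega, p.imp (fun p u hu => ?_) fun p => Or.inl ⟨p.1, Or.inl p.2⟩⟩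
    exact hu.elim (p u) fun hu => Or.inr (p3.trans (b1 u hu))
  have g2 : ITR (RelF (A ∪ B) a (a + n)) P m (a + n) y c2 X2 := h2.mono fun i k p1 p2 p3 p => by
    refine ⟨by omega, p2, p3, p.imp (fun p u hu => ?_) fun p => Or.inr ⟨p.1, Or.inr p.2⟩⟩
    exact hu.elim (fun hu => Or.inl ((a1 u hu).trans p1)) (p u)
  exact ⟨⟨_, sm, fanS_of g1 g2⟩, _, sm, by rw [image_union]; exact fanS_of g1.neg g2.neg⟩

end Pool.Agent.Lib.MP_4b56aa_gt.Fan
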