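import Pool.Agent.Lib.MP_4b56aa_gt.Fan.FTree
import Pool.Agent.Lib.MP_4b56aa_gt.Fan.FSamp
import Pool.Agent.Lib.MP_4b56aa_gt.Out.OHorse

namespace Pool.Agent.Lib.MP_4b56aa_gt.Fan

open Set Pool.Agent.Lib.MP_4b56aa_gt.Red Pool.Agent.Lib.MP_4b56aa_gt.Out

/-- The unit tangent for the normal angle `φ`. -/
noncomputable def tg (φ : ℝ) : ℂ := nv (φ + Real.pi / 2)

/-- The nearest point of `[α, β]`. -/
def cl (α β t : ℝ) : ℝ := max α (min t β)

/-- Clamped tangents on all faces except the apex. -/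
noncomputable def fld (ψ : ℕ → ℝ) (α β : ℝ) (a b i : ℕ) : ℂ :=
  if i = a ∨ i = b then 0 else tg (cl α β (ψ i))

/-- The excess of a terminal over the worst point of its disc. -/
noncomputable def ex (P q w : ℕ → ℂ) (r : ℝ) (i : ℕ) : ℝ :=
  dot (w i - w (i + 1)) (P i - q i) + r * ‖w i - w (i + 1)‖

/-- A fan over a sampling with apex `a` in the upper half and a marked point `z`. -/
structure Dat (L ρ r ε : ℝ) (n : ℕ) (ψ x : ℕ → ℝ) (P : ℕ → ℂ) (A : Set ℕ) (a j : ℕ) (c : ℝ)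
    (z : ℂ) : Prop where
  samp : Samp L ε n ψ x
  n4 : 4 ≤ n
  e0 : 0 < ε
  e1 : ε < 1
  near : ∀ i, dist (P i) (smp (ρ + r) ψ x i) ≤ r + ε
  sm : ∀ i k, a ≤ i → i ≤ k → k ≤ a + n → Pc A i k → Sm ψ i k
  mk' : Mk P A a (a + n) j c z
  lo : 0 ≤ ψ a
  hi : ψ a ≤ Real.pi

theorem tg_re (φ : ℝ) : (tg φ).re = -Real.sin φ := by rw [tg, nv_re, Real.cos_add_pi_div_two]

theorem tg_im (φ : ℝ) : (tg φ).im = Real.cos φ := by rw [tg, nv_im, Real.sin_add_pi_div_two]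

theorem norm_tg (φ : ℝ) : ‖tg φ‖ = 1 := norm_nv _

theorem norm_tg_sub (a b : ℝ) : ‖tg a - tg b‖ ≤ |a - b| := by
  simpa [tg] using norm_nv_sub (a + Real.pi / 2) (b + Real.pi / 2)

theorem norm_tg_sq (a b : ℝ) : ‖tg a - tg b‖ ^ 2 = 2 - 2 * Real.cos (a - b) := by
  rw [Complex.sq_norm, Complex.normSq_apply, Real.cos_sub]
  simp only [Complex.sub_re, Complex.sub_im, tg_re, tg_im]
  linear_combination Real.sin_sq_add_cos_sq a + Real.sin_sq_add_cos_sq b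

theorem chord_le {ν : ℝ} (h0 : 0 ≤ ν) {a b : ℝ} (h : |a - b| ≤ Real.pi / 3 - ν) :
    ‖tg a - tg b‖ ^ 2 ≤ 2 - 2 * Real.cos (Real.pi / 3 - ν) := by
  have := Real.cos_le_cos_of_nonneg_of_le_pi (abs_nonneg _) (by linarith [Real.pi_pos]) h
  rw [norm_tg_sq, ← Real.cos_abs]
  linarith

theorem chord_one {a b : ℝ} (h : |a - b| ≤ Real.pi / 3) : ‖tg a - tg b‖ ≤ 1 := by
  have := chord_le le_rfl (a := a) (b := b) (by simpa using h)
  rw [sub_zero, Real.cos_pi_div_three] at this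
  exact le_of_sq_le_sq₀' zero_le_one (by linarith)

theorem chord_slack {ν : ℝ} (h0 : 0 < ν) (h1 : ν ≤ Real.pi / 3) : ∃ lam, 0 < lam ∧ lam ≤ 1 ∧
    ∀ a b : ℝ, |a - b| ≤ Real.pi / 3 - ν → ‖tg a - tg b‖ ≤ 1 - lam := by
  have c := Real.cos_lt_cos_of_nonneg_of_le_pi (x := Real.pi / 3 - ν) (y := Real.pi / 3)
    (by linarith) (by linarith [Real.pi_pos]) (by linarith)
  rw [Real.cos_pi_div_three] at c
  have c1 := Real.cos_le_one (Real.pi / 3 - ν)
  refine ⟨Real.cos (Real.pi / 3 - ν) - 1 / 2, by linarith, by linarith, fun a b h => ?_⟩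
  refine le_of_sq_le_sq₀' (by linarith) ((chord_le h0.le h).trans ?_)
  nlinarith [sq_nonneg (Real.cos (Real.pi / 3 - ν) - 1 / 2)]

variable {α β : ℝ}

theorem cl_mem (h : α ≤ β) (t : ℝ) : α ≤ cl α β t ∧ cl α β t ≤ β :=
  ⟨le_max_left _ _, max_le h (min_le_right _ _)⟩

theorem cl_step {s t : ℝ} (h : s ≤ t) : cl α β s ≤ cl α β t ∧ cl α β t - cl α β s ≤ t - s ∧
    (cl α β s < cl α β t → s ≤ cl α β s ∧ cl α β t ≤ t) := by
  unfold cl
  simp only [max_def, min_def]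
  split_ifs <;> exact ⟨by linarith, by linarith, fun _ => ⟨by linarith, by linarith⟩⟩

theorem cl_lo {t : ℝ} (h : t ≤ α) : cl α β t = α := max_eq_left ((min_le_left _ _).trans h)

theorem cl_hi (hab : α ≤ β) {t : ℝ} (h : β ≤ t) : cl α β t = β := by
  rw [cl, min_eq_right h, max_eq_right hab]

theorem exists_near {f : ℕ → ℝ} {ε ω : ℝ} (hε : 0 ≤ ε) (hf : ∀ i, f (i + 1) ≤ f i + ε) {s t : ℕ}
    (h : s ≤ t) (h1 : f s ≤ ω) (h2 : ω ≤ f t) : ∃ m, s ≤ m ∧ m ≤ t ∧ ω - ε ≤ f m ∧ f m ≤ ω := by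
  induction t, h using Nat.le_induction with
  | base => exact ⟨s, le_rfl, le_rfl, by linarith, h1⟩
  | succ t h ih =>
    rcases le_total ω (f t) with c | c
    · obtain ⟨m, a, b, d⟩ := ih c
      exact ⟨m, a, by omega, d⟩
    · exact ⟨t, h, by omega, by linarith [hf t], c⟩

theorem sin_sub_ge {ε a b : ℝ} (h0 : 0 ≤ a) (h1 : a < b) (h2 : b ≤ ε) (h3 : ε < 1) :
    (b - a) * (1 - ε) ≤ Real.sin b - Real.sin a := by
  have s := Real.sin_gt_sub_cube (x := (b - a) / 2) (by linarith)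
  have c := Real.one_sub_sq_div_two_le_cos (x := (b + a) / 2)
  have s1 : (b - a) / 2 * (1 - ε / 2) ≤ Real.sin ((b - a) / 2) := by
    have : ((b - a) / 2) ^ 2 ≤ ε := by nlinarith
    nlinarith [mul_le_mul_of_nonneg_left this (show 0 ≤ (b - a) / 2 by linarith)]
  have c1 : 1 - ε / 2 ≤ Real.cos ((b + a) / 2) := by nlinarith
  have := mul_le_mul s1 c1 (by linarith) (le_trans (by nlinarith) s1)
  rw [Real.sin_sub_sin]
  nlinarith [mul_nonneg (sub_pos.2 h1).le (sq_nonneg ε)]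

variable {L ρ r ε θ c : ℝ} {n a j : ℕ} {ψ x : ℕ → ℝ} {P : ℕ → ℂ} {A : Set ℕ} {z : ℂ}

theorem dot_tg_smp (φ R : ℝ) (i : ℕ) :
    dot (tg φ) (smp R ψ x i) = -(x i * Real.sin φ) - R * Real.sin (φ - ψ i) := by
  simp only [dot, tg_re, tg_im, smp_re, smp_im, Real.sin_sub]
  ring

theorem Samp.mid (h : Samp L ε n ψ x) (hρ : 0 ≤ ρ) (hr : 0 ≤ r) (e0 : 0 < ε) (e1 : ε < 1) (i : ℕ) :
    x i * (Real.sin (cl α β (ψ (i + 1))) - Real.sin (cl α β (ψ i))) +
      (ρ - (ρ + r + 1) * ε) * (cl α β (ψ (i + 1)) - cl α β (ψ i)) ≤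
    dot (tg (cl α β (ψ i)) - tg (cl α β (ψ (i + 1)))) (smp (ρ + r) ψ x i) -
      (r + ε) * ‖tg (cl α β (ψ i)) - tg (cl α β (ψ (i + 1)))‖ := by
  obtain ⟨a, -, b⟩ := cl_step (α := α) (β := β) (h.mono i)
  rcases a.eq_or_lt with e | l
  · rw [e]; simp [dot]
  obtain ⟨b1, b2⟩ := b l
  set u := cl α β (ψ i)
  set v := cl α β (ψ (i + 1))
  have s := sin_sub_ge (a := u - ψ i) (b := v - ψ i) (by linarith) (by linarith)
    (by linarith [h.meshψ i]) e1
  have m := norm_tg_sub u v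
  rw [abs_sub_comm, abs_of_pos (sub_pos.2 l)] at m
  have d : dot (tg u - tg v) (smp (ρ + r) ψ x i) =
      dot (tg u) (smp (ρ + r) ψ x i) - dot (tg v) (smp (ρ + r) ψ x i) := by
    simp only [dot, Complex.sub_re, Complex.sub_im]; ring
  rw [d, dot_tg_smp, dot_tg_smp]
  nlinarith [mul_le_mul_of_nonneg_left s (add_nonneg hρ hr),
    mul_le_mul_of_nonneg_left m (show 0 ≤ r + ε by linarith)]

/-- The contribution of the feet of the samples. -/
noncomputable def tv (ψ x : ℕ → ℝ) (α β : ℝ) (s t : ℕ) : ℝ :=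
  ∑ i ∈ Finset.Ico s t, x i * (Real.sin (cl α β (ψ (i + 1))) - Real.sin (cl α β (ψ i)))

theorem Samp.tv_ge (h : Samp L ε n ψ x) {y : ℝ} (hy : |y| ≤ L) {s t : ℕ} (hst : s ≤ t) :
    y * (Real.sin (cl α β (ψ t)) - Real.sin (cl α β (ψ s))) ≤ Fan.tv ψ x α β s t := by
  induction t, hst using Nat.le_induction with
  | base => simp [Fan.tv]
  | succ t hst ih =>
    unfold Fan.tv at ih ⊢
    rw [Finset.sum_Ico_succ_top hst]
    obtain ⟨a, -, b⟩ := cl_step (α := α) (β := β) (h.mono t)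
    rcases a.eq_or_lt with e | l
    · rw [← e]; linarith
    · linarith [h.sin_le (b l).1 a (b l).2 hy]

theorem Samp.tv_two (h : Samp L ε n ψ x) (e0 : 0 < ε) {y1 y2 y3 ω1 ω2 : ℝ} (h1 : |y1| ≤ L)
    (h2 : |y2| ≤ L) (h3 : |y3| ≤ L) {s t : ℕ} (hst : s ≤ t) (a : cl α β (ψ s) ≤ ω1) (b : ω1 ≤ ω2)
    (d : ω2 ≤ cl α β (ψ t)) :
    y1 * (Real.sin ω1 - Real.sin (cl α β (ψ s))) + y2 * (Real.sin ω2 - Real.sin ω1) +
      y3 * (Real.sin (cl α β (ψ t)) - Real.sin ω2) - 4 * L * ε ≤ Fan.tv ψ x α β s t := by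
  have st : ∀ i, cl α β (ψ (i + 1)) ≤ cl α β (ψ i) + ε := fun i => by
    linarith [(cl_step (α := α) (β := β) (h.mono i)).2.1, h.meshψ i]
  obtain ⟨m1, p1, p2, p3, p4⟩ := exists_near (f := fun i => cl α β (ψ i)) e0.le st hst a (b.trans d)
  obtain ⟨m2, q1, q2, q3, q4⟩ := exists_near (f := fun i => cl α β (ψ i)) e0.le st p2 (p4.trans b) d
  have e : Fan.tv ψ x α β s t =
      Fan.tv ψ x α β s m1 + Fan.tv ψ x α β m1 m2 + Fan.tv ψ x α β m2 t := by
    unfold Fan.tv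
    rw [Finset.sum_Ico_consecutive _ p1 q1, Finset.sum_Ico_consecutive _ (p1.trans q1) q2]
  have k : ∀ y y' u ω : ℝ, |y| ≤ L → |y'| ≤ L → ω - ε ≤ u → u ≤ ω →
      (y - y') * (Real.sin ω - Real.sin u) ≤ 2 * L * ε := fun y y' u ω g g' g1 g2 => by
    refine (le_abs_self _).trans ?_
    rw [abs_mul]
    refine mul_le_mul ((abs_sub _ _).trans (by linarith)) ((Real.abs_sin_sub_sin_le _ _).trans
      (abs_le.2 ⟨by linarith, by linarith⟩)) (abs_nonneg _) (by linarith [abs_nonneg y])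
  have t1 := h.tv_ge (α := α) (β := β) h1 p1
  have t2 := h.tv_ge (α := α) (β := β) h2 q1
  have t3 := h.tv_ge (α := α) (β := β) h3 q2
  linarith [k y1 y2 _ _ h1 h2 p3 p4, k y2 y3 _ _ h2 h3 q3 q4]

theorem ex_nonneg {q w : ℕ → ℂ} {i : ℕ} (h : dist (P i) (q i) ≤ r) : 0 ≤ ex P q w r i := by
  have := dot_le (w (i + 1) - w i) (P i - q i)
  rw [norm_sub_rev, ← dist_eq_norm (P i)] at this
  have e := mul_le_mul_of_nonneg_left h (norm_nonneg (w i - w (i + 1)))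
  simp only [ex, dot, Complex.sub_re, Complex.sub_im] at this ⊢
  linarith

theorem norm_fld (b i : ℕ) : ‖fld ψ α β a b i‖ ≤ 1 := by
  unfold fld; split_ifs <;> simp [norm_tg]

theorem fld_mid {b i : ℕ} (h1 : a < i) (h2 : i < b) : fld ψ α β a b i = tg (cl α β (ψ i)) :=
  if_neg (by omega)

/-- The allowed potentials near the clamped tangents. -/
def Fs (ψ : ℕ → ℝ) (α β : ℝ) (a b : ℕ) (lam : ℝ) (i : ℕ) : Set ℂ :=
  {v | ‖v‖ ≤ 1 ∧ ‖v - fld ψ α β a b i‖ ≤ lam / 2 ∧ (i = a ∨ i = b → v = 0)}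

theorem fld_mem {b : ℕ} {lam : ℝ} (h : 0 ≤ lam) (i : ℕ) : fld ψ α β a b i ∈ Fs ψ α β a b lam i :=
  ⟨norm_fld b i, by simpa using by linarith, fun e => if_pos e⟩

theorem feas_Fs {b : ℕ} {lam : ℝ} (h1 : lam ≤ 1) (hp : ∀ i k, a < i → i < k → k < b → Pc A i k →
      ‖tg (cl α β (ψ i)) - tg (cl α β (ψ k))‖ ≤ 1 - lam) :
    Feas (RelF A a b) (Fs ψ α β a b lam) := by
  have tri : ∀ u v p q : ℂ, ‖u - v‖ ≤ ‖u - p‖ + ‖p - q‖ + ‖v - q‖ := fun u v p q => by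
    have := dist_triangle4_right u v p q
    simp only [dist_eq_norm] at this
    linarith
  rintro i k (rfl | ⟨r1, r2, r3, r4⟩) u hu v hv
  · have := tri u v (fld ψ α β a b i) (fld ψ α β a b i)
    rw [sub_self, norm_zero] at this
    linarith [hu.2.1, hv.2.1]
  by_cases e1 : i = a
  · rw [hu.2.2 (Or.inl e1), zero_sub, norm_neg]; exact hv.1
  by_cases e2 : k = b
  · rw [hv.2.2 (Or.inr e2), sub_zero]; exact hu.1
  have := hp i k (by omega) r2 (by omega)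
    (r4.resolve_right fun g => g.elim (fun g => e1 g.1) fun g => e2 g.1)
  rw [← fld_mid (a := a) (b := b) (by omega) (by omega),
    ← fld_mid (a := a) (b := b) (by omega) (by omega)] at this
  linarith [tri u v (fld ψ α β a b i) (fld ψ α β a b k), hu.2.1, hv.2.1]

theorem val_root (w : ℕ → ℂ) {b : ℕ} (h1 : a ≤ j) (h2 : j ≤ b) (e : w a = w b) (z : ℂ) :
    val P w a j z + val P w j b z = val P w a b 0 := by
  rw [← val_add w h1 h2, val_move w (h1.trans h2) z 0, e]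
  simp [dot]

theorem Dat.turn (D : Dat L ρ r ε n ψ x P A a j c z) {i k : ℕ} (h1 : a ≤ i) (h2 : i ≤ k)
    (h3 : k ≤ a + n) (p : Pc A i k) : |cl α β (ψ i) - cl α β (ψ k)| ≤ Real.pi / 3 := by
  obtain ⟨s1, s2, -⟩ := cl_step (α := α) (β := β) (D.samp.monotone h2)
  have := D.sm i k h1 h2 h3 p
  unfold Sm at this
  exact abs_le.2 ⟨by linarith, by linarith [Real.pi_pos]⟩

theorem Dat.val_le (D : Dat L ρ r ε n ψ x P A a j c z) :
    val P (fld ψ α β a (a + n)) a (a + n) 0 ≤ c := by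
  obtain ⟨j1, j2, k⟩ := D.mk'
  have e : fld ψ α β a (a + n) a = fld ψ α β a (a + n) (a + n) := by simp [fld]
  rw [← val_root _ j1.le j2.le e z]
  exact k _ (feas_Fs zero_le_one fun i k a1 a2 a3 p => by
    simpa using chord_one (D.turn a1.le a2.le a3.le p)) _ _ (fld_mem le_rfl) (fld_mem le_rfl) e

theorem Dat.val_ge (D : Dat L ρ r ε n ψ x P A a j c z) (hρ : 0 ≤ ρ) (hr : 0 ≤ r)
    (h1 : ψ a + ε ≤ α) (hab : α ≤ β) (h2 : β ≤ ψ a + 2 * Real.pi - ε) {y1 y2 y3 ω1 ω2 : ℝ}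
    (g1 : |y1| ≤ L) (g2 : |y2| ≤ L) (g3 : |y3| ≤ L) (w1 : α ≤ ω1) (w2 : ω1 ≤ ω2) (w3 : ω2 ≤ β) :
    ∑ i ∈ Finset.Ico a (a + n), ex P (smp (ρ + r) ψ x) (fld ψ α β a (a + n)) (r + ε) i +
      (x a * (Real.sin α - Real.sin β) + (ρ + r) * (Real.sin (α - ψ a) - Real.sin (β - ψ a)) -
      2 * r + ρ * (β - α) + (y1 * (Real.sin ω1 - Real.sin α) + y2 * (Real.sin ω2 - Real.sin ω1) +
      y3 * (Real.sin β - Real.sin ω2)) - (4 * L + 9 * (ρ + r) + 11) * ε) ≤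
    val P (fld ψ α β a (a + n)) a (a + n) 0 := by
  have n4 := D.n4
  have e0 := D.e0
  obtain ⟨b, hb⟩ : ∃ b, a + n = b + 1 := ⟨a + n - 1, by omega⟩
  have pψ := D.samp.perψ a
  have px := D.samp.perx a
  rw [hb] at pψ px ⊢
  set w := fld ψ α β a (b + 1) with hw
  set q := smp (ρ + r) ψ x with hq
  have ca : cl α β (ψ (a + 1)) = α := cl_lo (by linarith [D.samp.meshψ a])
  have cb : cl α β (ψ b) = β := cl_hi hab (by linarith [D.samp.meshψ b])
  have split : val P w a (b + 1) 0 = ∑ i ∈ Finset.Ico a (b + 1), ex P q w (r + ε) i +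
      ∑ i ∈ Finset.Ico a (b + 1), (dot (w i - w (i + 1)) (q i) - (r + ε) * ‖w i - w (i + 1)‖) := by
    rw [val, ← Finset.sum_add_distrib]
    refine Finset.sum_congr rfl fun i _ => ?_
    simp only [ex, dot, Complex.sub_re, Complex.sub_im, Complex.zero_re, Complex.zero_im]
    ring
  rw [split, Finset.sum_Ico_succ_top (show a ≤ b by omega)
    (fun i => dot (w i - w (i + 1)) (q i) - (r + ε) * ‖w i - w (i + 1)‖),
    Finset.sum_eq_sum_Ico_succ_bot (show a < b by omega)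
    (fun i => dot (w i - w (i + 1)) (q i) - (r + ε) * ‖w i - w (i + 1)‖)]
  have wa : w a = 0 := if_pos (Or.inl rfl)
  have wb : w (b + 1) = 0 := if_pos (Or.inr rfl)
  have wa1 : w (a + 1) = tg α := by rw [hw, fld_mid (by omega) (by omega), ca]
  have wb1 : w b = tg β := by rw [hw, fld_mid (by omega) (by omega), cb]
  have mid : Fan.tv ψ x α β (a + 1) b + (ρ - (ρ + r + 1) * ε) * (β - α) ≤
      ∑ i ∈ Finset.Ico (a + 1) b, (dot (w i - w (i + 1)) (q i) - (r + ε) * ‖w i - w (i + 1)‖) := by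
    have tel := Finset.sum_Ico_sub (fun i => cl α β (ψ i)) (show a + 1 ≤ b by omega)
    rw [ca, cb] at tel
    rw [← tel, Finset.mul_sum, Fan.tv, ← Finset.sum_add_distrib]
    refine Finset.sum_le_sum fun i hi => ?_
    have := Finset.mem_Ico.1 hi
    rw [hw, fld_mid (by omega) (by omega), fld_mid (by omega) (by omega)]
    exact D.samp.mid hρ hr e0 D.e1 i
  have t := D.samp.tv_two (α := α) (β := β) e0 g1 g2 g3 (show a + 1 ≤ b by omega)
    (ca.trans_le w1) w2 (w3.trans_eq cb.symm)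
  rw [ca, cb] at t
  have f1 : dot (0 - tg α) (q a) = -dot (tg α) (q a) := by simp [dot]; ring
  rw [wa, wb, wa1, wb1, f1, zero_sub, norm_neg, sub_zero, norm_tg, norm_tg, hq, dot_tg_smp,
    dot_tg_smp]
  have s1 : Real.sin (β - ψ b) ≤ Real.sin (β - ψ a) + ε := by
    have := Real.abs_sin_sub_sin_le (β - ψ b) (β - ψ a - 2 * Real.pi)
    rw [Real.sin_sub_two_pi] at this
    have e : |β - ψ b - (β - ψ a - 2 * Real.pi)| ≤ ε :=
      abs_le.2 ⟨by linarith [D.samp.mono b], by linarith [D.samp.meshψ b]⟩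
    linarith [(abs_le.1 (this.trans e)).2]
  have s2 : (x b - x a) * Real.sin β ≤ ε := by
    refine (le_abs_self _).trans ?_
    rw [abs_mul, abs_sub_comm, ← px]
    exact (mul_le_of_le_one_right (abs_nonneg _) (Real.abs_sin_le_one β)).trans (D.samp.meshx b)
  have s3 : (ρ + r + 1) * ε * (β - α) ≤ (ρ + r + 1) * ε * 8 :=
    mul_le_mul_of_nonneg_left (by linarith [Real.pi_le_four]) (by positivity)
  nlinarith [mul_le_mul_of_nonneg_left s1 (add_nonneg hρ hr)]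

end Pool.Agent.Lib.MP_4b56aa_gt.Fan
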